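import Mathlib
import Pool.Agent.Helper10.UC.Defs

set_option autoImplicit false

open Set Topology
open scoped Manifold ContDiff

namespace Pool.Agent.H69Z.Bim

section Analytic

variable {E H : Type*} [NormedAddCommGroup E] [NormedSpace ℂ E] [TopologicalSpace H]
  (I : ModelWithCorners ℂ E H) {Z : Type*} [TopologicalSpace Z] [ChartedSpace H Z]

/-- `A` is a (closed) analytic subset of the complex manifold `Z`: near every point of `Z` it is
the common zero set of finitely many holomorphic functions. -/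
def IsAnalyticSet (A : Set Z) : Prop :=
  ∀ z : Z, ∃ U : Set Z, IsOpen U ∧ z ∈ U ∧ ∃ (n : ℕ) (g : Z → (Fin n → ℂ)),
    MDifferentiableOn I 𝓘(ℂ, Fin n → ℂ) g U ∧ ∀ y ∈ U, (y ∈ A ↔ g y = 0)

/-- `A` is an irreducible analytic subset of `Z`: analytic, nonempty, and not the union of two
analytic subsets both different from `A`. -/
def IsIrreducibleAnalyticSet (A : Set Z) : Prop :=
  IsAnalyticSet I A ∧ A.Nonempty ∧
    ∀ A₁ A₂ : Set Z, IsAnalyticSet I A₁ → IsAnalyticSet I A₂ → A = A₁ ∪ A₂ → A = A₁ ∨ A = A₂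

end Analytic

/-- The complex manifolds `X` (of dimension `m`) and `Y` (of dimension `k`) are bimeromorphic:
there is an irreducible closed analytic subset `Γ` of `X × Y` such that both projections
`Γ → X`, `Γ → Y` are proper and biholomorphic over the complement of a nowhere dense analytic
subset (over that complement `Γ` is the graph of a holomorphic map). -/
def Bimeromorphic (m k : ℕ) (X Y : Type*) [TopologicalSpace X] [ChartedSpace (Fin m → ℂ) X]
    [TopologicalSpace Y] [ChartedSpace (Fin k → ℂ) Y] : Prop :=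
  ∃ Γ : Set (X × Y),
    IsIrreducibleAnalyticSet (𝓘(ℂ, Fin m → ℂ).prod 𝓘(ℂ, Fin k → ℂ)) Γ ∧
    IsProperMap (fun z : Γ => z.1.1) ∧
    (∃ A : Set X, IsAnalyticSet 𝓘(ℂ, Fin m → ℂ) A ∧ IsNowhereDense A ∧
      ∃ ψ : X → Y, MDifferentiableOn 𝓘(ℂ, Fin m → ℂ) 𝓘(ℂ, Fin k → ℂ) ψ Aᶜ ∧
        ∀ x, x ∉ A → ∀ y, ((x, y) ∈ Γ ↔ y = ψ x)) ∧
    IsProperMap (fun z : Γ => z.1.2) ∧
    (∃ B : Set Y, IsAnalyticSet 𝓘(ℂ, Fin k → ℂ) B ∧ IsNowhereDense B ∧
      ∃ φ : Y → X, MDifferentiableOn 𝓘(ℂ, Fin k → ℂ) 𝓘(ℂ, Fin m → ℂ) φ Bᶜ ∧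
        ∀ y, y ∉ B → ∀ x, ((x, y) ∈ Γ ↔ x = φ y))

/-- A map from a complex manifold of dimension `m` to a projective space is holomorphic: locally
it is `[v_0 : ... : v_n]` with holomorphic `v_i` without common zero. -/
def IsHolToProj (m : ℕ) {X : Type*} [TopologicalSpace X] [ChartedSpace (Fin m → ℂ) X]
    {ι : Type} [Fintype ι] (p : X → Helper10.UC.PP ι) : Prop :=
  ∀ x : X, ∃ U : Set X, IsOpen U ∧ x ∈ U ∧ ∃ v : X → (ι → ℂ),
    MDifferentiableOn 𝓘(ℂ, Fin m → ℂ) 𝓘(ℂ, ι → ℂ) v U ∧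
      ∀ z ∈ U, ∃ h : v z ≠ 0, p z = Projectivization.mk ℂ (v z) h

end Pool.Agent.H69Z.Bim
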