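import Mathlib
import Pool.Agent.Helper10.UC.Base

set_option autoImplicit false

open Set Metric Filter Topology

namespace Pool.Agent.H69Z.Bim

open Pool.Agent.Helper10.UC

theorem develop {X : Type*} [TopologicalSpace X] [SimplyConnectedSpace X]
    [LocallyPathConnectedSpace X] {G : Type*} [AddCommGroup G] (V : X → Set X)
    (hV : ∀ x, IsOpen (V x)) (hx : ∀ x, x ∈ V x) (ζ : X → X → G)
    (h : ∀ a b, ∀ z ∈ V a ∩ V b, ∀ᶠ w in 𝓝 z, ζ a w - ζ b w = ζ a z - ζ b z) :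
    ∃ s : X → G, ∀ x, ∀ᶠ w in 𝓝 x, s w - ζ x w = s x - ζ x x := by
  letI : TopologicalSpace G := ⊥
  have : DiscreteTopology G := ⟨rfl⟩
  let Z : FiberBundleCore X X G :=
    { baseSet := V
      isOpen_baseSet := hV
      indexAt := id
      mem_baseSet_at := hx
      coordChange := fun i j x c => c + (ζ i x - ζ j x)
      coordChange_self := fun i x _ v => by simp
      continuousOn_coordChange := fun i j => by
        rintro ⟨z, c⟩ ⟨hz, -⟩
        apply ContinuousAt.continuousWithinAt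
        have h1 : (fun p : X × G => p.2 + (ζ i p.1 - ζ j p.1)) =ᶠ[𝓝 (z, c)]
            fun _ => c + (ζ i z - ζ j z) := by
          have h2 : ∀ᶠ p : X × G in 𝓝 (z, c), p.2 = c :=
            continuous_snd.continuousAt.eventually
              ((isOpen_discrete {c}).mem_nhds (mem_singleton c))
          filter_upwards [continuous_fst.continuousAt.eventually (h i j z hz), h2] with p h3 h4
          rw [h3, h4]
        exact continuousAt_const.congr h1.symm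
      coordChange_comp := fun i j k x _ v => by abel }
  have hcov : IsCoveringMap Z.proj := FiberBundle.isCoveringMap
  obtain ⟨x₀⟩ : Nonempty X := inferInstance
  obtain ⟨σ, ⟨-, hσ⟩, -⟩ := hcov.existsUnique_continuousMap_lifts (ContinuousMap.id X) x₀
    ⟨x₀, (0 : G)⟩ rfl
  have hσ1 : ∀ w, (σ w).1 = w := fun w => congrFun hσ w
  let c : X → G := fun w => (σ w).2
  refine ⟨fun w => c w + ζ w w, fun x => ?_⟩
  have h1 : ContinuousAt (fun w => (Z.localTriv x (σ w)).2) x := by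
    apply continuous_snd.continuousAt.comp
    refine ContinuousAt.comp ?_ σ.continuous.continuousAt
    apply (Z.localTriv x).continuousAt
    rw [FiberBundleCore.mem_localTriv_source, hσ1]
    exact hx x
  have h2 : ∀ w, (Z.localTriv x (σ w)).2 = c w + ζ w w - ζ x w := by
    intro w
    rw [FiberBundleCore.localTriv_apply]
    show c w + (ζ (σ w).1 (σ w).1 - ζ x (σ w).1) = _
    rw [hσ1]
    abel
  have h3 := h1.eventually ((isOpen_discrete {(Z.localTriv x (σ x)).2}).mem_nhds (mem_singleton _))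
  filter_upwards [h3] with w hw
  rw [← h2 w, ← h2 x]
  exact hw

theorem eq_of_sq_re {x y : ℂ} (h : x ^ 2 = y ^ 2) (hx : 0 < x.re) (hy : 0 < y.re) : x = y := by
  rcases sq_eq_sq_iff_eq_or_eq_neg.1 h with h1 | h1
  · exact h1
  · rw [h1, Complex.neg_re] at hx
    linarith

theorem loc_param (i j k l : Fin 4) (α β γ δ : ℂ) {a₀ : Fin 4 → ℂ} (hi : a₀ i ≠ 0)
    (hk : a₀ k ≠ 0) (hl : a₀ l ≠ 0) (C : Set (Fin 4 → ℂ))
    (hC : ∀ a ∈ C, a k ^ 2 = α * a i ^ 2 + β * a j ^ 2 ∧ a l ^ 2 = γ * a i ^ 2 + δ * a j ^ 2)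
    (ha₀ : a₀ ∈ C) :
    ∃ W : Set (Fin 4 → ℂ), IsOpen W ∧ a₀ ∈ W ∧ ∃ ζ : (Fin 4 → ℂ) → ℂ, DifferentiableOn ℂ ζ W ∧
      (∀ a ∈ W, a i ≠ 0 ∧ a k ≠ 0 ∧ a l ≠ 0) ∧
      (∀ a ∈ W, a ∈ C → ∀ d, fderiv ℂ ζ a d * (a k * a l) = a i * d j - a j * d i) ∧
      ∀ a ∈ W, a ∈ C → ∀ a' ∈ W, a' ∈ C → ζ a = ζ a' →
        a j / a i = a' j / a' i ∧ a k / a i = a' k / a' i ∧ a l / a i = a' l / a' i := by
  set τ₀ := a₀ j / a₀ i with hτ₀
  set κ₀ := a₀ k / a₀ i with hκ₀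
  set lam₀ := a₀ l / a₀ i with hlam₀
  have hκ0 : κ₀ ≠ 0 := div_ne_zero hk hi
  have hl0 : lam₀ ≠ 0 := div_ne_zero hl hi
  have hsq : ∀ a ∈ C, a i ≠ 0 → (a k / a i) ^ 2 = α + β * (a j / a i) ^ 2 ∧
      (a l / a i) ^ 2 = γ + δ * (a j / a i) ^ 2 := by
    intro a ha h0
    obtain ⟨h1, h2⟩ := hC a ha
    constructor
    · field_simp; exact h1.trans (by ring)
    · field_simp; exact h2.trans (by ring)
  let q : ℂ → ℂ := fun τ => (α + β * τ ^ 2) * (γ + δ * τ ^ 2) / (κ₀ * lam₀) ^ 2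
  have hq : Differentiable ℂ q := by
    intro τ
    simp only [q]
    fun_prop
  have hq0 : q τ₀ = 1 := by
    obtain ⟨h1, h2⟩ := hsq a₀ ha₀ hi
    simp only [q]
    rw [← h1, ← h2, div_eq_one_iff_eq (pow_ne_zero _ (mul_ne_zero hκ0 hl0))]
    ring
  let s : ℂ → ℂ := fun τ => Complex.exp (Complex.log (q τ) / 2)
  have hsd : ∀ τ, q τ ∈ Complex.slitPlane → DifferentiableAt ℂ s τ := fun τ hτ =>
    (((hq τ).clog hτ).div_const 2).cexp
  have hs2 : ∀ τ, q τ ∈ Complex.slitPlane → s τ ^ 2 = q τ := by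
    intro τ hτ
    simp only [s]
    rw [← Complex.exp_nat_mul]
    have : ((2 : ℕ) : ℂ) * (Complex.log (q τ) / 2) = Complex.log (q τ) := by push_cast; ring
    rw [this, Complex.exp_log (Complex.slitPlane_ne_zero hτ)]
  have hs0 : s τ₀ = 1 := by simp [s, hq0]
  have hslit : ∀ᶠ τ in 𝓝 τ₀, q τ ∈ Complex.slitPlane :=
    hq.continuous.continuousAt.eventually (Complex.isOpen_slitPlane.mem_nhds (by simp [hq0]))
  have hsre : ∀ᶠ τ in 𝓝 τ₀, 0 < (s τ).re := by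
    have h1 : ContinuousAt (fun τ => (s τ).re) τ₀ :=
      Complex.continuous_re.continuousAt.comp (hsd τ₀ hslit.self_of_nhds).continuousAt
    exact continuousAt_const.eventually_lt h1 (by simp [hs0])
  obtain ⟨r, hr, hball⟩ := Metric.eventually_nhds_iff_ball.1 (hslit.and hsre)
  have hsne : ∀ τ, s τ ≠ 0 := fun τ => Complex.exp_ne_zero _
  obtain ⟨ζ₀, hζ₀⟩ : Complex.IsExactOn (fun τ => (κ₀ * lam₀ * s τ)⁻¹) (ball τ₀ r) := by
    apply DifferentiableOn.isExactOn_ball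
    intro τ hτ
    exact (((hsd τ (hball τ hτ).1).const_mul _).inv
      (mul_ne_zero (mul_ne_zero hκ0 hl0) (hsne τ))).differentiableWithinAt
  have hstrict : HasStrictDerivAt ζ₀ (κ₀ * lam₀ * s τ₀)⁻¹ τ₀ := by
    have h1 : DifferentiableOn ℂ ζ₀ (ball τ₀ r) := fun τ hτ =>
      (hζ₀ τ hτ).differentiableAt.differentiableWithinAt
    have h2 := (h1.analyticAt (ball_mem_nhds τ₀ hr)).hasStrictDerivAt
    rwa [(hζ₀ τ₀ (mem_ball_self hr)).deriv] at h2
  have hinv := (hstrict.hasStrictFDerivAt_equiv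
    (inv_ne_zero (mul_ne_zero (mul_ne_zero hκ0 hl0) (hsne τ₀)))).eventually_left_inverse
  obtain ⟨O, hO1, hO, hτO⟩ := _root_.mem_nhds_iff.1 (hinv.and (ball_mem_nhds τ₀ hr))
  have hU : IsOpen {a : Fin 4 → ℂ | a i ≠ 0} := isOpen_ne_fun (continuous_apply i) continuous_const
  let T : (Fin 4 → ℂ) → ℂ × ℝ × ℝ × ℝ := fun a => (a j / a i, (a k / a i / κ₀).re,
    (a l / a i / lam₀).re, (a k / a i * (a l / a i) / (κ₀ * lam₀)).re)
  have hT : ContinuousOn T {a | a i ≠ 0} := by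
    intro a ha
    apply ContinuousAt.continuousWithinAt
    have h1 : ∀ n : Fin 4, ContinuousAt (fun a : Fin 4 → ℂ => a n / a i) a := fun n =>
      (continuous_apply n).continuousAt.div (continuous_apply i).continuousAt ha
    exact (h1 j).prodMk ((Complex.continuous_re.continuousAt.comp ((h1 k).div_const _)).prodMk
      ((Complex.continuous_re.continuousAt.comp ((h1 l).div_const _)).prodMk
      (Complex.continuous_re.continuousAt.comp (((h1 k).mul (h1 l)).div_const _))))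
  have hder : ∀ a : Fin 4 → ℂ, a i ≠ 0 → HasFDerivAt (fun a : Fin 4 → ℂ => a j / a i)
      ((a i)⁻¹ • (ContinuousLinearMap.proj j : (Fin 4 → ℂ) →L[ℂ] ℂ) -
        (a j / a i ^ 2) • (ContinuousLinearMap.proj i : (Fin 4 → ℂ) →L[ℂ] ℂ)) a := by
    intro a ha
    have h1 := hasFDerivAt_apply (𝕜 := ℂ) j a
    have h2 := (hasDerivAt_inv ha).comp_hasFDerivAt a (hasFDerivAt_apply (𝕜 := ℂ) i a)
    have h3 := h1.mul h2
    have h4 : (fun a : Fin 4 → ℂ => a j / a i) =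
        ((fun f : Fin 4 → ℂ => f j) * (fun y : ℂ => y⁻¹) ∘ fun f : Fin 4 → ℂ => f i) := by
      ext d
      simp [div_eq_mul_inv]
    rw [h4]
    refine h3.congr_fderiv ?_
    apply ContinuousLinearMap.ext
    intro d
    simp only [ContinuousLinearMap.smul_apply, ContinuousLinearMap.sub_apply,
      ContinuousLinearMap.add_apply, ContinuousLinearMap.proj_apply, smul_eq_mul,
      Function.comp_apply]
    field_simp
    ring
  refine ⟨{a | a i ≠ 0} ∩ T ⁻¹' (O ×ˢ Ioi 0 ×ˢ Ioi 0 ×ˢ Ioi 0),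
    hT.isOpen_inter_preimage hU (hO.prod (isOpen_Ioi.prod (isOpen_Ioi.prod isOpen_Ioi))),
    ⟨hi, hτO, ?_, ?_, ?_⟩, fun a => ζ₀ (a j / a i), ?_, ?_, ?_, ?_⟩
  · show 0 < (κ₀ / κ₀).re
    simp [hκ0]
  · show 0 < (lam₀ / lam₀).re
    simp [hl0]
  · show 0 < (κ₀ * lam₀ / (κ₀ * lam₀)).re
    rw [div_self (mul_ne_zero hκ0 hl0)]
    simp
  · rintro a ⟨ha, h1, -⟩
    exact ((hζ₀ _ (hO1 h1).2).differentiableAt.comp a
      (hder a ha).differentiableAt).differentiableWithinAt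
  · rintro a ⟨ha, -, h2, h3, -⟩
    refine ⟨ha, fun h => ?_, fun h => ?_⟩
    · simp [T, h] at h2
    · simp [T, h] at h3
  · rintro a ⟨ha, h1, -, -, h4⟩ haC d
    have ha' : a i ≠ 0 := ha
    have h5 := ((hζ₀ _ (hO1 h1).2).comp_hasFDerivAt a (hder a ha)).fderiv
    have h6 : fderiv ℂ (fun a : Fin 4 → ℂ => ζ₀ (a j / a i)) a = _ := h5
    rw [h6]
    obtain ⟨e1, e2⟩ := hsq a haC ha
    have h7 : a k / a i * (a l / a i) / (κ₀ * lam₀) = s (a j / a i) := by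
      apply eq_of_sq_re _ h4 (hball _ (hO1 h1).2).2
      rw [hs2 _ (hball _ (hO1 h1).2).1]
      simp only [q]
      rw [← e1, ← e2]
      ring
    have h8 : a k * a l = κ₀ * lam₀ * s (a j / a i) * a i ^ 2 := by
      rw [← h7]
      field_simp
    rw [h8]
    have h9 := hsne (a j / a i)
    simp only [T, ContinuousLinearMap.smul_apply, ContinuousLinearMap.sub_apply,
      ContinuousLinearMap.proj_apply, smul_eq_mul]
    field_simp
  · rintro a ⟨ha, h1, h2, h3, -⟩ haC a' ⟨ha', h1', h2', h3', -⟩ haC' hζ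
    have e0 : a j / a i = a' j / a' i := by
      have h4 := (hO1 h1).1
      have h5 := (hO1 h1').1
      have h6 : ζ₀ (T a).1 = ζ₀ (T a').1 := hζ
      rw [h6] at h4
      exact h4.symm.trans h5
    obtain ⟨e1, e2⟩ := hsq a haC ha
    obtain ⟨e1', e2'⟩ := hsq a' haC' ha'
    refine ⟨e0, ?_, ?_⟩
    · have := eq_of_sq_re (x := a k / a i / κ₀) (y := a' k / a' i / κ₀)
        (by rw [div_pow, div_pow _ κ₀, e1, e1', e0]) h2 h2'
      exact (div_left_inj' hκ0).1 this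
    · have := eq_of_sq_re (x := a l / a i / lam₀) (y := a' l / a' i / lam₀)
        (by rw [div_pow, div_pow _ lam₀, e2, e2', e0]) h3 h3'
      exact (div_left_inj' hl0).1 this

/-- `w` is the value of the invariant differential at the tangent vector `d` at `a` -/
def Rel (a d : Fin 4 → ℂ) (w : ℂ) : Prop :=
  a 0 * d 1 - a 1 * d 0 = w * (a 2 * a 3) ∧ a 0 * d 2 - a 2 * d 0 = w * (a 1 * a 3) ∧
    a 0 * d 3 - a 3 * d 0 = w * (a 1 * a 2)

/-- tangent vectors of the cone -/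
def Tan (a d : Fin 4 → ℂ) : Prop :=
  a 2 * d 2 = 2 * a 0 * d 0 + a 1 * d 1 ∧ a 3 * d 3 = 3 * a 0 * d 0 + a 1 * d 1

theorem ec_cases {a : Fin 4 → ℂ} (ha : a ≠ 0) (h : EC a) :
    (a 0 ≠ 0 ∧ a 2 ≠ 0 ∧ a 3 ≠ 0) ∨ (a 1 ≠ 0 ∧ a 2 ≠ 0 ∧ a 3 ≠ 0) ∨
      (a 0 ≠ 0 ∧ a 1 ≠ 0 ∧ a 3 ≠ 0) ∨ (a 0 ≠ 0 ∧ a 1 ≠ 0 ∧ a 2 ≠ 0) := by
  obtain ⟨h2, h3⟩ := h
  have key : a 0 = 0 → a 1 = 0 → False := by
    intro h0 h1
    apply ha
    rw [h0, h1] at h2 h3
    have e2 : a 2 = 0 := by simpa using h2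
    have e3 : a 3 = 0 := by simpa using h3
    funext n
    fin_cases n <;> simp [h0, h1, e2, e3]
  by_cases h0 : a 0 = 0
  · have h1 : a 1 ≠ 0 := fun h1 => key h0 h1
    refine Or.inr (Or.inl ⟨h1, fun e => h1 ?_, fun e => h1 ?_⟩)
    · rw [h0, e] at h2; simpa using h2.symm
    · rw [h0, e] at h3; simpa using h3.symm
  by_cases h1 : a 1 = 0
  · refine Or.inl ⟨h0, fun e => h0 ?_, fun e => h0 ?_⟩
    · rw [h1, e] at h2; simpa using h2.symm
    · rw [h1, e] at h3; simpa using h3.symm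
  by_cases e2 : a 2 = 0
  · refine Or.inr (Or.inr (Or.inl ⟨h0, h1, fun e3 => h0 ?_⟩))
    have : a 0 ^ 2 = 0 := by
      rw [e2] at h2; rw [e3] at h3
      linear_combination h2 - h3
    simpa using this
  · exact Or.inr (Or.inr (Or.inr ⟨h0, h1, e2⟩))

theorem Rel.unique {a d : Fin 4 → ℂ} (ha : a ≠ 0) (h : EC a) {w w' : ℂ} (h1 : Rel a d w)
    (h2 : Rel a d w') : w = w' := by
  rcases ec_cases ha h with h3 | h3 | h3 | h3
  · exact mul_right_cancel₀ (mul_ne_zero h3.2.1 h3.2.2) (h1.1.symm.trans h2.1)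
  · exact mul_right_cancel₀ (mul_ne_zero h3.2.1 h3.2.2) (h1.1.symm.trans h2.1)
  · exact mul_right_cancel₀ (mul_ne_zero h3.2.1 h3.2.2) (h1.2.1.symm.trans h2.2.1)
  · exact mul_right_cancel₀ (mul_ne_zero h3.2.1 h3.2.2) (h1.2.2.symm.trans h2.2.2)

theorem Rel.scale {a d : Fin 4 → ℂ} {w : ℂ} (h : Rel a d w) (c e : ℂ) :
    Rel (c • a) (c • d + e • a) w := by
  obtain ⟨h1, h2, h3⟩ := h
  simp only [Rel, Pi.smul_apply, Pi.add_apply, smul_eq_mul]
  exact ⟨by linear_combination c ^ 2 * h1, by linear_combination c ^ 2 * h2,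
    by linear_combination c ^ 2 * h3⟩

theorem prop_of_ratios {a a' : Fin 4 → ℂ} {i : Fin 4} (hi : a i ≠ 0) (hi' : a' i ≠ 0)
    (h : ∀ n, n ≠ i → a n / a i = a' n / a' i) : ∃ c : ℂ, a' = c • a := by
  refine ⟨a' i / a i, funext fun n => ?_⟩
  by_cases hn : n = i
  · subst hn; simp [hi]
  · have := h n hn
    rw [div_eq_div_iff hi hi'] at this
    simp only [Pi.smul_apply, smul_eq_mul]
    field_simp
    linear_combination -this

theorem ell_local {a₀ : Fin 4 → ℂ} (ha₀ : a₀ ≠ 0) (h₀ : EC a₀) :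
    ∃ W : Set (Fin 4 → ℂ), IsOpen W ∧ a₀ ∈ W ∧ ∃ ζ : (Fin 4 → ℂ) → ℂ, DifferentiableOn ℂ ζ W ∧
      (∀ a ∈ W, EC a → ∀ d, Tan a d → Rel a d (fderiv ℂ ζ a d)) ∧
      ∀ a ∈ W, EC a → ∀ a' ∈ W, EC a' → ζ a = ζ a' → ∃ c : ℂ, a' = c • a := by
  rcases ec_cases ha₀ h₀ with h | h | h | h
  · obtain ⟨W, hW, haW, ζ, hζ, h1, h2, h3⟩ := loc_param 0 1 2 3 2 1 3 1 h.1 h.2.1 h.2.2 {a | EC a}
      (fun a ha => ⟨by rw [ha.1]; ring, by rw [ha.2]; ring⟩) h₀
    refine ⟨W, hW, haW, ζ, hζ, fun a ha hE d hd => ?_, fun a ha hE a' ha' hE' he => ?_⟩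
    · obtain ⟨n0, n2, n3⟩ := h1 a ha
      have e := h2 a ha hE d
      refine ⟨e.symm, mul_left_cancel₀ n2 ?_, mul_left_cancel₀ n3 ?_⟩
      · linear_combination a 0 * hd.1 - d 0 * hE.1 - a 1 * e
      · linear_combination a 0 * hd.2 - d 0 * hE.2 - a 1 * e
    · obtain ⟨e1, e2, e3⟩ := h3 a ha hE a' ha' hE' he
      refine prop_of_ratios (h1 a ha).1 (h1 a' ha').1 fun n hn => ?_
      fin_cases n <;> simp_all
  · obtain ⟨W, hW, haW, ζ, hζ, h1, h2, h3⟩ := loc_param 1 0 2 3 1 2 1 3 h.1 h.2.1 h.2.2 {a | EC a}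
      (fun a ha => ⟨by rw [ha.1]; ring, by rw [ha.2]; ring⟩) h₀
    refine ⟨W, hW, haW, fun a => -ζ a, hζ.neg, fun a ha hE d hd => ?_,
      fun a ha hE a' ha' hE' he => ?_⟩
    · obtain ⟨n0, n2, n3⟩ := h1 a ha
      have e := h2 a ha hE d
      have e' : fderiv ℂ (fun a => -ζ a) a d = -fderiv ℂ ζ a d := by
        rw [fderiv_fun_neg]; rfl
      rw [e']
      refine ⟨by linear_combination e, mul_left_cancel₀ n2 ?_, mul_left_cancel₀ n3 ?_⟩
      · linear_combination a 0 * hd.1 - d 0 * hE.1 + a 1 * e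
      · linear_combination a 0 * hd.2 - d 0 * hE.2 + a 1 * e
    · obtain ⟨e1, e2, e3⟩ := h3 a ha hE a' ha' hE' (neg_injective he)
      refine prop_of_ratios (h1 a ha).1 (h1 a' ha').1 fun n hn => ?_
      fin_cases n <;> simp_all
  · obtain ⟨W, hW, haW, ζ, hζ, h1, h2, h3⟩ := loc_param 0 2 1 3 (-2) 1 1 1 h.1 h.2.1 h.2.2
      {a | EC a}
      (fun a ha => ⟨by linear_combination -ha.1, by linear_combination ha.2 - ha.1⟩) h₀
    refine ⟨W, hW, haW, ζ, hζ, fun a ha hE d hd => ?_, fun a ha hE a' ha' hE' he => ?_⟩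
    · obtain ⟨n0, n1, n3⟩ := h1 a ha
      have e := h2 a ha hE d
      refine ⟨mul_left_cancel₀ n1 ?_, e.symm, mul_left_cancel₀ n3 ?_⟩
      · linear_combination -a 0 * hd.1 + d 0 * hE.1 - a 2 * e
      · linear_combination a 0 * hd.2 - d 0 * hE.2 - a 2 * e - a 0 * hd.1 + d 0 * hE.1
    · obtain ⟨e1, e2, e3⟩ := h3 a ha hE a' ha' hE' he
      refine prop_of_ratios (h1 a ha).1 (h1 a' ha').1 fun n hn => ?_
      fin_cases n <;> simp_all
  · obtain ⟨W, hW, haW, ζ, hζ, h1, h2, h3⟩ := loc_param 0 3 1 2 (-3) 1 (-1) 1 h.1 h.2.1 h.2.2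
      {a | EC a}
      (fun a ha => ⟨by linear_combination -ha.2, by linear_combination ha.1 - ha.2⟩) h₀
    refine ⟨W, hW, haW, ζ, hζ, fun a ha hE d hd => ?_, fun a ha hE a' ha' hE' he => ?_⟩
    · obtain ⟨n0, n1, n2⟩ := h1 a ha
      have e := h2 a ha hE d
      refine ⟨mul_left_cancel₀ n1 ?_, mul_left_cancel₀ n2 ?_, e.symm⟩
      · linear_combination -a 0 * hd.2 + d 0 * hE.2 - a 3 * e
      · linear_combination a 0 * hd.1 - d 0 * hE.1 - a 3 * e - a 0 * hd.2 + d 0 * hE.2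
    · obtain ⟨e1, e2, e3⟩ := h3 a ha hE a' ha' hE' he
      refine prop_of_ratios (h1 a ha).1 (h1 a' ha').1 fun n hn => ?_
      fin_cases n <;> simp_all

end Pool.Agent.H69Z.Bim
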