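import Mathlib
import Pool.Agent.Helper540.Osgood
import Pool.Agent.Helper417.Mer.HartogsExt
import Pool.Agent.Helper417.Mer.ThinCompl

set_option autoImplicit false

open Set Metric Filter Topology

namespace Pool.Agent.H69Z.Bim

/-- Cauchy formula for a bounded function which is holomorphic off a discrete set -/
theorem cauchy_off {f : ℂ → ℂ} {r R C : ℝ} (hr : 0 < r) (hrR : r < R) {T : Set ℂ}
    (hiso : ∀ t ∈ ball (0 : ℂ) R, ∀ᶠ s in 𝓝[≠] t, s ∉ T)
    (hd : ∀ t ∈ ball (0 : ℂ) R, t ∉ T → DifferentiableAt ℂ f t)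
    (hb : ∀ t ∈ ball (0 : ℂ) R, t ∉ T → ‖f t‖ ≤ C)
    (h0 : (0 : ℂ) ∉ T) (hs : ∀ t ∈ sphere (0 : ℂ) r, t ∉ T) :
    (∮ ξ in C(0, r), ξ⁻¹ * f ξ) = 2 * Real.pi * Complex.I * f 0 := by
  set k : ℂ → ℂ := fun t => limUnder (𝓝[≠] t) f with hk
  have hkf : ∀ t ∈ ball (0 : ℂ) R, t ∉ T → k t = f t := by
    intro t ht htT
    exact ((hd t ht htT).continuousAt.tendsto.mono_left nhdsWithin_le_nhds).limUnder_eq
  have hkd : DifferentiableOn ℂ k (ball 0 R) := by
    intro t ht
    have h1 := hiso t ht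
    rw [eventually_nhdsWithin_iff] at h1
    obtain ⟨s, hs1, hso, hts⟩ := _root_.mem_nhds_iff.1 (h1.and (isOpen_ball.mem_nhds ht))
    have hs2 : ∀ u ∈ s \ {t}, u ∈ ball (0 : ℂ) R ∧ u ∉ T := fun u hu =>
      ⟨(hs1 hu.1).2, (hs1 hu.1).1 hu.2⟩
    have h2 := Complex.differentiableOn_update_limUnder_of_bddAbove (f := f) (hso.mem_nhds hts)
      (fun u hu => (hd u (hs2 u hu).1 (hs2 u hu).2).differentiableWithinAt)
      ⟨C, by
        rintro _ ⟨u, hu, rfl⟩
        exact hb u (hs2 u hu).1 (hs2 u hu).2⟩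
    have h3 : k =ᶠ[𝓝 t] Function.update f t (limUnder (𝓝[≠] t) f) := by
      filter_upwards [hso.mem_nhds hts] with u hu
      by_cases hut : u = t
      · subst hut; simp [hk]
      · rw [Function.update_of_ne hut]
        exact hkf u (hs2 u ⟨hu, hut⟩).1 (hs2 u ⟨hu, hut⟩).2
    exact ((h2.differentiableAt (hso.mem_nhds hts)).congr_of_eventuallyEq h3).differentiableWithinAt
  have h4 := (hkd.mono (closedBall_subset_ball hrR)).circleIntegral_sub_inv_smul
    (w := 0) (mem_ball_self hr)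
  rw [hkf 0 (mem_ball_self (hr.trans hrR)) h0, smul_eq_mul] at h4
  rw [← h4]
  apply circleIntegral.integral_congr hr.le
  intro t ht
  have := hkf t (closedBall_subset_ball hrR (sphere_subset_closedBall ht)) (hs t ht)
  simp [this]

variable {E : Type} [NormedAddCommGroup E] [NormedSpace ℂ E]

/-- Riemann extension theorem in a finite dimensional space -/
theorem riemann0 [FiniteDimensional ℂ E] {W B : Set E} (hW : IsOpen W) (hWB : IsOpen (W \ B))
    {h f : E → ℂ} (hh : DifferentiableOn ℂ h W) (hB : ∀ z ∈ W, z ∈ B → h z = 0) {a : E}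
    (ha : a ∈ W) (hne : ¬ ∀ᶠ z in 𝓝 a, h z = 0) (hf : DifferentiableOn ℂ f (W \ B)) {C : ℝ}
    (hb : ∀ z ∈ W \ B, ‖f z‖ ≤ C) :
    ∃ W' : Set E, IsOpen W' ∧ a ∈ W' ∧ W' ⊆ W ∧ ∃ F : E → ℂ, DifferentiableOn ℂ F W' ∧
      ∀ z ∈ W', z ∉ B → F z = f z := by
  obtain ⟨ρ, hρ, hρW⟩ := Metric.isOpen_iff.1 hW a ha
  obtain ⟨p, hp, hp0⟩ : ∃ p ∈ ball a (ρ / 4), h p ≠ 0 := by
    by_contra hcon
    push Not at hcon
    exact hne (by filter_upwards [ball_mem_nhds a (by positivity : 0 < ρ / 4)] using hcon)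
  set v := p - a with hv
  have hvn : ‖v‖ < ρ / 4 := by rwa [hv, ← dist_eq_norm]
  have hmem : ∀ z ∈ ball a (ρ / 2), ∀ t ∈ ball (0 : ℂ) 2, z + t • v ∈ W := by
    intro z hz t ht
    apply hρW
    rw [mem_ball, dist_eq_norm] at hz ⊢
    rw [mem_ball_zero_iff] at ht
    have e : z + t • v - a = (z - a) + t • v := by abel
    rw [e]
    have h1 := norm_add_le (z - a) (t • v)
    rw [norm_smul] at h1
    have h2 : ‖t‖ * ‖v‖ ≤ 2 * ‖v‖ := mul_le_mul_of_nonneg_right ht.le (norm_nonneg _)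
    linarith
  have han : ∀ z ∈ ball a (ρ / 2), AnalyticOnNhd ℂ (fun t : ℂ => h (z + t • v)) (ball 0 2) := by
    intro z hz
    exact ((Helper540.line_diff hh z v).mono (fun t ht => hmem z hz t ht)).analyticOnNhd isOpen_ball
  have hiso : ∀ z ∈ ball a (ρ / 2), ∀ t₁ ∈ ball (0 : ℂ) 2, h (z + t₁ • v) ≠ 0 →
      ∀ t ∈ ball (0 : ℂ) 2, ∀ᶠ s in 𝓝[≠] t, h (z + s • v) ≠ 0 := by
    intro z hz t₁ ht₁ h1 t ht
    rcases (han z hz t ht).eventually_eq_zero_or_eventually_ne_zero with h2 | h2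
    · exact absurd ((han z hz).eqOn_zero_of_preconnected_of_eventuallyEq_zero
        (convex_ball _ _).isPreconnected ht h2 ht₁) h1
    · exact h2
  have ha2 : a ∈ ball a (ρ / 2) := mem_ball_self (by positivity)
  have h1 := hiso a ha2 1 (by simp) (by simpa [hv] using hp0) 0 (by simp)
  rw [eventually_nhdsWithin_iff] at h1
  obtain ⟨ε, hε, hε1⟩ := Metric.eventually_nhds_iff_ball.1 h1
  set r : ℝ := min (ε / 2) 1 with hr
  have hr0 : 0 < r := lt_min (by positivity) one_pos
  have hr1 : r ≤ 1 := min_le_right _ _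
  have hrε : r < ε := (min_le_left _ _).trans_lt (by linarith)
  have hsph : ∀ t ∈ sphere (0 : ℂ) r, t ∈ ball (0 : ℂ) 2 ∧ t ≠ 0 := by
    intro t ht
    rw [mem_sphere_zero_iff_norm] at ht
    refine ⟨by rw [mem_ball_zero_iff]; linarith, ?_⟩
    rintro rfl
    simp at ht
    linarith
  have h2 : ∀ᶠ z in 𝓝 a, ∀ t ∈ sphere (0 : ℂ) r, h (z + t • v) ≠ 0 := by
    apply (isCompact_sphere (0 : ℂ) r).eventually_forall_of_forall_eventually
    intro t ht
    have hc : ContinuousAt (fun q : E × ℂ => h (q.1 + q.2 • v)) (a, t) := by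
      have h3 : ContinuousAt h (a + t • v) :=
        (hh.differentiableAt (hW.mem_nhds (hmem a ha2 t (hsph t ht).1))).continuousAt
      exact ContinuousAt.comp (f := fun q : E × ℂ => q.1 + q.2 • v) h3 (by fun_prop)
    apply hc.eventually_ne
    apply hε1 t _ (hsph t ht).2
    rw [mem_sphere_zero_iff_norm] at ht
    rw [mem_ball_zero_iff]
    linarith
  obtain ⟨W', hW'1, hW'o, haW'⟩ := _root_.mem_nhds_iff.1 (h2.and (ball_mem_nhds a
    (by positivity : 0 < ρ / 2)))
  refine ⟨W', hW'o, haW', fun z hz => ?_,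
    fun z => (2 * Real.pi * Complex.I)⁻¹ * ∮ ξ in C(0, r), ξ⁻¹ * f (z + ξ • v), ?_, ?_⟩
  · simpa using hmem z (hW'1 hz).2 0 (by simp)
  · apply DifferentiableOn.const_mul
    have hΩ : IsOpen {q : E × ℂ | q.1 + q.2 • v ∈ W \ B ∧ q.2 ≠ 0} :=
      (hWB.preimage (by fun_prop : Continuous fun q : E × ℂ => q.1 + q.2 • v)).inter
        (isOpen_ne_fun continuous_snd continuous_const)
    refine Helper417.Mer.Hartogs673.param_circle (F := fun q : E × ℂ => q.2⁻¹ * f (q.1 + q.2 • v))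
      hΩ ?_ hW'o ?_
    · intro q hq
      apply DifferentiableAt.differentiableWithinAt
      apply DifferentiableAt.mul
      · exact differentiableAt_snd.inv hq.2
      · exact DifferentiableAt.comp (f := fun q : E × ℂ => q.1 + q.2 • v) q
          (hf.differentiableAt (hWB.mem_nhds hq.1)) (by fun_prop)
    · intro z hz ξ hξ
      rw [abs_of_pos hr0] at hξ
      have hm := hmem z (hW'1 hz).2 ξ (hsph ξ hξ).1
      exact ⟨⟨hm, fun hb' => (hW'1 hz).1 ξ hξ (hB _ hm hb')⟩, (hsph ξ hξ).2⟩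
  · intro z hz hzB
    have hz2 := (hW'1 hz).2
    have hrs : (r : ℂ) ∈ sphere (0 : ℂ) r := by simp [abs_of_pos hr0]
    have h3 := cauchy_off (f := fun t : ℂ => f (z + t • v)) (C := C) hr0 (by linarith : r < 2)
      (T := {t | z + t • v ∈ B}) ?_ ?_ ?_ (by simpa using hzB) ?_
    · simp only [zero_smul, add_zero] at h3
      beta_reduce
      rw [h3, ← mul_assoc, inv_mul_cancel₀ Complex.two_pi_I_ne_zero, one_mul]
    · intro t ht
      filter_upwards [hiso z hz2 r (hsph _ hrs).1 ((hW'1 hz).1 _ hrs) t ht,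
        mem_nhdsWithin_of_mem_nhds (isOpen_ball.mem_nhds ht)] with s hs hs2 hsB
      exact hs (hB _ (hmem z hz2 s hs2) hsB)
    · intro t ht htB
      exact DifferentiableAt.comp (f := fun t : ℂ => z + t • v) t
        (hf.differentiableAt (hWB.mem_nhds ⟨hmem z hz2 t ht, htB⟩)) (by fun_prop)
    · intro t ht htB
      exact hb _ ⟨hmem z hz2 t ht, htB⟩
    · intro t ht htB
      exact (hW'1 hz).1 t ht (hB _ (hmem z hz2 t (hsph t ht).1) htB)

/-- vector valued version -/
theorem riemann1 [FiniteDimensional ℂ E] {W B : Set E} (hW : IsOpen W) (hWB : IsOpen (W \ B))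
    {h : E → ℂ} {n : ℕ} {f : E → (Fin n → ℂ)} (hh : DifferentiableOn ℂ h W)
    (hB : ∀ z ∈ W, z ∈ B → h z = 0) {a : E}
    (ha : a ∈ W) (hne : ¬ ∀ᶠ z in 𝓝 a, h z = 0) (hf : DifferentiableOn ℂ f (W \ B)) {C : ℝ}
    (hb : ∀ z ∈ W \ B, ‖f z‖ ≤ C) :
    ∃ W' : Set E, IsOpen W' ∧ a ∈ W' ∧ W' ⊆ W ∧ ∃ F : E → (Fin n → ℂ), DifferentiableOn ℂ F W' ∧
      ∀ z ∈ W', z ∉ B → F z = f z := by
  have key := fun i : Fin n => riemann0 (f := fun z => f z i) hW hWB hh hB ha hne
    (differentiableOn_pi.1 hf i) (C := C) (fun z hz => (norm_le_pi_norm (f z) i).trans (hb z hz))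
  choose W' hW'o haW' hW'W F hF hFf using key
  refine ⟨W ∩ ⋂ i, W' i, hW.inter (isOpen_iInter_of_finite hW'o), ⟨ha, mem_iInter.2 haW'⟩,
    inter_subset_left, fun z i => F i z, ?_, ?_⟩
  · exact differentiableOn_pi.2 fun i => (hF i).mono fun z hz => mem_iInter.1 hz.2 i
  · intro z hz hzB
    funext i
    exact hFf i z (mem_iInter.1 hz.2 i) hzB

/-! ### sets on which a map has only countably many uncountable fibres -/

/-- only countably many fibres of `G` meet `M` in an uncountable set -/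
def Small {α β : Type*} (G : α → β) (M : Set α) : Prop :=
  {c | ¬ (M ∩ G ⁻¹' {c}).Countable}.Countable

theorem Small.mono {α β : Type*} {G : α → β} {M M' : Set α} (h : Small G M') (hM : M ⊆ M') :
    Small G M := by
  apply Set.Countable.mono _ h
  intro c hc hc'
  exact hc (hc'.mono (inter_subset_inter_left _ hM))

theorem Small.biUnion {α β ι : Type*} {G : α → β} {t : Set ι} (ht : t.Countable) {M : ι → Set α}
    (h : ∀ i ∈ t, Small G (M i)) : Small G (⋃ i ∈ t, M i) := by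
  apply Set.Countable.mono _ (ht.biUnion h)
  intro c hc
  by_contra hcon
  apply hc
  simp only [mem_iUnion, mem_setOf_eq, not_exists, not_not] at hcon
  have : (⋃ i ∈ t, M i) ∩ G ⁻¹' {c} = ⋃ i ∈ t, (M i ∩ G ⁻¹' {c}) := by
    simp only [iUnion_inter]
  rw [this]
  exact ht.biUnion hcon

theorem Small.of_local {α β : Type*} [TopologicalSpace α] [SecondCountableTopology α] {G : α → β}
    {M : Set α} (h : ∀ x ∈ M, ∃ V ∈ 𝓝 x, Small G (V ∩ M)) : Small G M := by
  choose! V hV hS using h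
  obtain ⟨t, htM, htc, hcov⟩ := TopologicalSpace.countable_cover_nhdsWithin (f := fun x => V x ∩ M)
    (s := M) (fun x hx => inter_mem (mem_nhdsWithin_of_mem_nhds (hV x hx)) self_mem_nhdsWithin)
  exact (Small.biUnion htc fun x hx => hS x (htM hx)).mono hcov

theorem Small.image {α α' β : Type*} {G : α → β} {γ : α' → α} {M : Set α'}
    (h : Small (G ∘ γ) M) : Small G (γ '' M) := by
  apply Set.Countable.mono _ h
  intro c hc hc'
  apply hc
  apply (hc'.image γ).mono
  rintro _ ⟨⟨x, hx, rfl⟩, hxc⟩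
  exact ⟨x, ⟨hx, hxc⟩, rfl⟩

theorem countable_of_isolated {α : Type*} [TopologicalSpace α] [SecondCountableTopology α]
    {T : Set α} (h : ∀ x ∈ T, ∀ᶠ y in 𝓝 x, y ∈ T → y = x) : T.Countable := by
  obtain ⟨t, htM, htc, hcov⟩ := TopologicalSpace.countable_cover_nhdsWithin (f := fun x => {x})
    (s := T) (fun x hx => by
      have := h x hx
      rw [← eventually_nhdsWithin_iff] at this
      exact this)
  apply htc.mono
  intro x hx
  obtain ⟨y, hy, hxy⟩ := mem_iUnion₂.1 (hcov hx)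
  rw [mem_singleton_iff.1 hxy]
  exact hy

theorem small_disc {F : Type*} [NormedAddCommGroup F] [NormedSpace ℂ F] [CompleteSpace F]
    {G : ℂ → F} {r : ℝ}
    (hG : DifferentiableOn ℂ G (ball 0 r)) : Small G (ball 0 r) := by
  apply (countable_singleton (G 0)).mono
  intro c hc
  by_contra hcon
  apply hc
  apply countable_of_isolated
  rintro x ⟨hx, hxc⟩
  by_contra hfr
  have han := hG.analyticOnNhd isOpen_ball
  have hfr2 : ∃ᶠ y in 𝓝[≠] x, G y = (fun _ => c) y := by
    rw [frequently_nhdsWithin_iff]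
    rw [Filter.not_eventually] at hfr
    apply hfr.mono
    intro y hy
    push Not at hy
    exact ⟨hy.1.2, hy.2⟩
  have h0 : (0 : ℂ) ∈ ball (0 : ℂ) r := mem_ball_self (pos_of_mem_ball hx)
  have := han.eqOn_of_preconnected_of_frequently_eq analyticOnNhd_const
    (convex_ball _ _).isPreconnected hx hfr2 h0
  exact hcon this.symm

theorem small_smooth [FiniteDimensional ℂ E] (hE : Module.finrank ℂ E = 2)
    {F : Type*} [NormedAddCommGroup F] [NormedSpace ℂ F] [CompleteSpace F]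
    {W : Set E} (hW : IsOpen W) {G : E → F} (hG : DifferentiableOn ℂ G W) {φ : E → ℂ}
    (hφW : DifferentiableOn ℂ φ W) {a : E} (ha : a ∈ W) (h : fderiv ℂ φ a ≠ 0) :
    ∃ V ∈ 𝓝 a, Small G (V ∩ {z | φ z = φ a}) := by
  have : CompleteSpace E := FiniteDimensional.complete ℂ E
  have hφ : ContDiffAt ℂ 1 φ a :=
    (Helper540.contDiffOn_of_differentiableOn hW hφW 1).contDiffAt (hW.mem_nhds ha)
  have hs : HasStrictFDerivAt φ (fderiv ℂ φ a) a := hφ.hasStrictFDerivAt (by simp)
  have hr : (fderiv ℂ φ a).range = ⊤ := by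
    apply Module.Dual.range_eq_top_of_ne_zero
    intro h0
    apply h
    ext x
    exact LinearMap.congr_fun h0 x
  have hker : (fderiv ℂ φ a).ker.ClosedComplemented :=
    (fderiv ℂ φ a).ker_closedComplemented_of_finiteDimensional_range
  set D := HasStrictFDerivAt.implicitFunctionDataOfComplemented φ (fderiv ℂ φ a) hs hr hker with hD
  have hpt : D.pt = a := rfl
  have hr0 : D.rightFun D.pt = 0 := by
    show Classical.choose hker (a - a) = 0
    rw [sub_self, map_zero]
  have hpf : D.prodFun D.pt = (φ a, 0) := by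
    rw [D.prodFun_apply, hr0]; rfl
  have hinj : Continuous (fun y : (fderiv ℂ φ a).ker => (φ a, y)) := by fun_prop
  have htend : Tendsto (fun y : (fderiv ℂ φ a).ker => (φ a, y)) (𝓝 0) (𝓝 (φ a, 0)) :=
    hinj.tendsto 0
  have hψ0 : D.implicitFunction (φ a) 0 = a := by
    have := D.implicitFunction_apply_image.self_of_nhds
    rw [hr0] at this
    exact this
  have hψd : ∀ᶠ y in 𝓝 (0 : (fderiv ℂ φ a).ker), DifferentiableAt ℂ (D.implicitFunction (φ a)) y := by
    have h1 : ContDiffAt ℂ 1 D.implicitFunction.uncurry (D.prodFun D.pt) := by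
      apply D.contDiffAt_implicitFunction (n := 1)
      · exact hφ
      · show ContDiffAt ℂ 1 (fun x => Classical.choose hker (x - a)) a
        fun_prop
      · simp
    rw [hpf] at h1
    have h2 : ∀ᶠ p in 𝓝 ((φ a, 0) : ℂ × (fderiv ℂ φ a).ker),
        DifferentiableAt ℂ D.implicitFunction.uncurry p := by
      have := h1.eventually (by simp)
      filter_upwards [this] with p hp using hp.differentiableAt (by simp)
    filter_upwards [htend.eventually h2] with y hy
    have h3 : DifferentiableAt ℂ (fun y : (fderiv ℂ φ a).ker => (φ a, y)) y := by fun_prop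
    exact DifferentiableAt.comp (f := fun y : (fderiv ℂ φ a).ker => (φ a, y)) y hy h3
  have hdim : Module.finrank ℂ ℂ = Module.finrank ℂ (fderiv ℂ φ a).ker := by
    have h1 := LinearMap.finrank_range_add_finrank_ker (fderiv ℂ φ a : E →ₗ[ℂ] ℂ)
    have h2 : (fderiv ℂ φ a : E →ₗ[ℂ] ℂ).range = ⊤ := hr
    rw [h2, finrank_top, Module.finrank_self, hE] at h1
    rw [Module.finrank_self]
    have h3 : Module.finrank ℂ (fderiv ℂ φ a : E →ₗ[ℂ] ℂ).ker = 1 := by omega
    exact h3.symm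
  let L : ℂ ≃L[ℂ] (fderiv ℂ φ a).ker := ContinuousLinearEquiv.ofFinrankEq hdim
  have hL0 : Tendsto L (𝓝 0) (𝓝 0) := by simpa using L.continuous.tendsto 0
  have hψW : ∀ᶠ y in 𝓝 (0 : (fderiv ℂ φ a).ker), D.implicitFunction (φ a) y ∈ W := by
    apply hψd.self_of_nhds.continuousAt.eventually
    rw [hψ0]
    exact hW.mem_nhds ha
  obtain ⟨r, hr0', hball⟩ := Metric.eventually_nhds_iff_ball.1 (hL0.eventually (hψd.and hψW))
  have hsm : Small (G ∘ (fun t : ℂ => D.implicitFunction (φ a) (L t))) (ball 0 r) := by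
    apply small_disc
    intro t ht
    apply DifferentiableAt.differentiableWithinAt
    exact (hG.differentiableAt (hW.mem_nhds (hball t ht).2)).comp t
      ((hball t ht).1.comp t L.differentiableAt)
  have hrc : Tendsto (fun z => L.symm (D.rightFun z)) (𝓝 a) (𝓝 0) := by
    have h1 : Continuous (fun z => L.symm (D.rightFun z)) := by
      show Continuous (fun z => L.symm (Classical.choose hker (z - a)))
      fun_prop
    have h2 := h1.tendsto a
    have h3 : D.rightFun a = 0 := hr0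
    rw [h3, map_zero] at h2
    exact h2
  refine ⟨_, (hrc.eventually (ball_mem_nhds (0 : ℂ) hr0')).and D.implicitFunction_apply_image,
    hsm.image.mono ?_⟩
  rintro z ⟨⟨hz1, hz2⟩, hz3⟩
  refine ⟨_, hz1, ?_⟩
  have hz4 : D.leftFun z = φ a := hz3
  rw [hz4] at hz2
  simpa using hz2

theorem small_zero [FiniteDimensional ℂ E] (hE : Module.finrank ℂ E = 2)
    {F : Type*} [NormedAddCommGroup F] [NormedSpace ℂ F] [CompleteSpace F]
    {W : Set E} (hW : IsOpen W) {G : E → F} (hG : DifferentiableOn ℂ G W) {h : E → ℂ}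
    (hh : DifferentiableOn ℂ h W) (hne : ∀ a ∈ W, ¬ ∀ᶠ z in 𝓝 a, h z = 0) :
    Small G {z | z ∈ W ∧ h z = 0} := by
  classical
  have : ProperSpace E := FiniteDimensional.proper ℂ E
  obtain ⟨D, hDc, hDd⟩ := TopologicalSpace.exists_countable_dense E
  have key : ∀ q ∈ D ×ˢ (univ : Set ℕ), Small G {z | z ∈ W ∧ Helper540.dirD h q.1 q.2 z = 0 ∧
      Helper540.dirD h q.1 (q.2 + 1) z ≠ 0} := by
    rintro ⟨v, m⟩ -
    apply Small.of_local
    rintro a ⟨ha, h1, h2⟩
    obtain ⟨V, hV, hS⟩ := small_smooth hE hW hG (Helper540.dirD_diff hW hh v m) ha (by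
      intro h0
      apply h2
      show fderiv ℂ (Helper540.dirD h v m) a v = 0
      rw [h0]; rfl)
    refine ⟨V, hV, hS.mono ?_⟩
    rintro z ⟨hz1, hz2, hz3, -⟩
    exact ⟨hz1, hz3.trans h1.symm⟩
  apply (Small.biUnion (hDc.prod countable_univ) key).mono
  rintro a ⟨ha, h0⟩
  obtain ⟨ρ, hρ, hρW⟩ := Metric.isOpen_iff.1 hW a ha
  obtain ⟨p, hp, hp0⟩ : ∃ p ∈ ball a (ρ / 2), h p ≠ 0 := by
    by_contra hcon
    push Not at hcon
    exact hne a ha (by filter_upwards [ball_mem_nhds a (by positivity : 0 < ρ / 2)] using hcon)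
  have hsub : ball a (ρ / 2) ⊆ W := (ball_subset_ball (by linarith)).trans hρW
  have hO : IsOpen {v : E | a + v ∈ ball a (ρ / 2) ∧ h (a + v) ≠ 0} := by
    have h1 : IsOpen (ball a (ρ / 2) ∩ h ⁻¹' {0}ᶜ) :=
      (hh.continuousOn.mono hsub).isOpen_inter_preimage isOpen_ball isOpen_compl_singleton
    exact h1.preimage (by fun_prop : Continuous fun v : E => a + v)
  obtain ⟨v, hvD, hv1, hv2⟩ := hDd.exists_mem_open hO ⟨p - a, by simpa using hp, by simpa using hp0⟩
  have hvn : ‖v‖ < ρ / 2 := by simpa [mem_ball, dist_eq_norm] using hv1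
  have hex : ∃ m, Helper540.dirD h v m a ≠ 0 := by
    by_contra hcon
    push Not at hcon
    have h1 := Helper540.dirD_all_zero hW hh ha hcon
    have hmem : ∀ t ∈ ball (0 : ℂ) 2, a + t • v ∈ W := by
      intro t ht
      apply hρW
      rw [mem_ball_zero_iff] at ht
      rw [mem_ball, dist_eq_norm, add_sub_cancel_left, norm_smul]
      have h2 : ‖t‖ * ‖v‖ ≤ 2 * ‖v‖ := mul_le_mul_of_nonneg_right ht.le (norm_nonneg _)
      linarith
    have han : AnalyticOnNhd ℂ (fun t : ℂ => h (a + t • v)) (ball 0 2) :=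
      ((Helper540.line_diff hh a v).mono hmem).analyticOnNhd isOpen_ball
    have := han.eqOn_zero_of_preconnected_of_eventuallyEq_zero (convex_ball _ _).isPreconnected
      (by simp : (0 : ℂ) ∈ ball (0 : ℂ) 2) h1 (by simp : (1 : ℂ) ∈ ball (0 : ℂ) 2)
    apply hv2
    simpa using this
  have hm0 : Nat.find hex ≠ 0 := by
    intro h1
    have := Nat.find_spec hex
    rw [h1] at this
    exact this h0
  obtain ⟨m, hm⟩ := Nat.exists_eq_succ_of_ne_zero hm0
  refine mem_iUnion₂.2 ⟨(v, m), ⟨hvD, mem_univ _⟩, ha, ?_, ?_⟩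
  · have := Nat.find_min hex (m := m) (by omega)
    simpa using this
  · have := Nat.find_spec hex
    rw [hm] at this
    exact this

end Pool.Agent.H69Z.Bim
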