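import Mathlib
import Pool.Agent.H69Z.Bim.Defs
import Pool.Agent.H69Z.Bim.Riem

set_option autoImplicit false

open Set Metric Filter Topology
open scoped Manifold ContDiff

namespace Pool.Agent.H69Z.Bim

section Gen

variable {E H : Type*} [NormedAddCommGroup E] [NormedSpace ℂ E] [TopologicalSpace H]
  {I : ModelWithCorners ℂ E H} {Z : Type*} [TopologicalSpace Z] [ChartedSpace H Z]

theorem IsAnalyticSet.isClosed {A : Set Z} (hA : IsAnalyticSet I A) : IsClosed A := by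
  rw [← isOpen_compl_iff, isOpen_iff_mem_nhds]
  intro z hz
  obtain ⟨U, hU, hzU, n, g, hg, hAg⟩ := hA z
  have h1 : g z ≠ 0 := fun h => hz ((hAg z hzU).2 h)
  have h2 : ContinuousAt g z := hg.continuousOn.continuousAt (hU.mem_nhds hzU)
  filter_upwards [h2.eventually_ne h1, hU.mem_nhds hzU] with y hy hyU hyA
  exact hy ((hAg y hyU).1 hyA)

theorem IsAnalyticSet.inter {A B : Set Z} (hA : IsAnalyticSet I A) (hB : IsAnalyticSet I B) :
    IsAnalyticSet I (A ∩ B) := by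
  intro z
  obtain ⟨U, hU, hzU, n, g, hg, hAg⟩ := hA z
  obtain ⟨U', hU', hzU', n', g', hg', hBg⟩ := hB z
  let L : ((Fin n → ℂ) × (Fin n' → ℂ)) ≃L[ℂ] (Fin (n + n') → ℂ) :=
    ContinuousLinearEquiv.ofFinrankEq (by simp)
  refine ⟨U ∩ U', hU.inter hU', ⟨hzU, hzU'⟩, n + n', fun y => L (g y, g' y), ?_, ?_⟩
  · have h1 : MDifferentiableOn I 𝓘(ℂ, (Fin n → ℂ) × (Fin n' → ℂ)) (fun y => (g y, g' y))
        (U ∩ U') :=
      (hg.mono inter_subset_left).prodMk_space (hg'.mono inter_subset_right)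
    exact L.differentiable.mdifferentiable.comp_mdifferentiableOn h1
  · intro y hy
    rw [mem_inter_iff, hAg y hy.1, hBg y hy.2]
    simp

theorem IsAnalyticSet.preimage {E' H' : Type*} [NormedAddCommGroup E'] [NormedSpace ℂ E']
    [TopologicalSpace H'] {I' : ModelWithCorners ℂ E' H'} {Z' : Type*} [TopologicalSpace Z']
    [ChartedSpace H' Z'] {A : Set Z} (hA : IsAnalyticSet I A) {f : Z' → Z}
    (hf : MDifferentiable I' I f) : IsAnalyticSet I' (f ⁻¹' A) := by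
  intro z
  obtain ⟨U, hU, hzU, n, g, hg, hAg⟩ := hA (f z)
  exact ⟨f ⁻¹' U, hU.preimage hf.continuous, hzU, n, g ∘ f,
    hg.comp hf.mdifferentiableOn (fun _ h => h), fun y hy => hAg (f y) hy⟩

theorem nebot {B : Set Z} (hB : IsNowhereDense B) (y : Z) : (𝓝[Bᶜ] y).NeBot := by
  have h1 : interior B = ∅ := subset_empty_iff.1 (by
    rw [← hB]; exact interior_mono subset_closure)
  exact mem_closure_iff_nhdsWithin_neBot.1 (interior_eq_empty_iff_dense_compl.1 h1 y)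

theorem thin {B : Set Z} (hA : IsAnalyticSet I B) (hB : IsNowhereDense B) (y : Z) :
    ∃ U : Set Z, IsOpen U ∧ y ∈ U ∧ ∃ h : Z → ℂ, MDifferentiableOn I 𝓘(ℂ, ℂ) h U ∧
      (∀ z ∈ U, z ∈ B → h z = 0) ∧ ¬ ∀ᶠ z in 𝓝 y, h z = 0 := by
  obtain ⟨U, hU, hyU, n, g, hg, hAg⟩ := hA y
  have hex : ∃ i, ¬ ∀ᶠ z in 𝓝 y, g z i = 0 := by
    by_contra hcon
    simp only [not_exists, not_not] at hcon
    have h1 : ∀ᶠ z in 𝓝 y, z ∈ B := by
      filter_upwards [eventually_all.2 hcon, hU.mem_nhds hyU] with z hz hzU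
      exact (hAg z hzU).2 (funext hz)
    have := nebot hB y
    obtain ⟨z, hz1, hz2⟩ := ((h1.filter_mono (nhdsWithin_le_nhds (s := Bᶜ))).and
      self_mem_nhdsWithin).exists
    exact hz2 hz1
  obtain ⟨i, hi⟩ := hex
  refine ⟨U, hU, hyU, fun z => g z i, ?_, fun z hz hzB => ?_, hi⟩
  · exact (ContinuousLinearMap.proj (R := ℂ) (φ := fun _ : Fin n => ℂ) i).differentiable.mdifferentiable.comp_mdifferentiableOn hg
  · exact congrFun ((hAg z hz).1 hzB) i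

end Gen

section Charts

variable {k : ℕ} {Y : Type*} [TopologicalSpace Y] [ChartedSpace (Fin k → ℂ) Y]
  [IsManifold 𝓘(ℂ, Fin k → ℂ) 1 Y]

theorem toVec {G : Type*} [NormedAddCommGroup G] [NormedSpace ℂ G] {f : Y → G} {U : Set Y}
    (hf : MDifferentiableOn 𝓘(ℂ, Fin k → ℂ) 𝓘(ℂ, G) f U) (y : Y) :
    DifferentiableOn ℂ (f ∘ (chartAt (Fin k → ℂ) y).symm)
      ((chartAt (Fin k → ℂ) y).target ∩ (chartAt (Fin k → ℂ) y).symm ⁻¹' U) := by
  rw [← mdifferentiableOn_iff_differentiableOn]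
  exact hf.comp ((mdifferentiable_chart (I := 𝓘(ℂ, Fin k → ℂ)) y).2.mono inter_subset_left)
    (fun _ h => h.2)

omit [IsManifold 𝓘(ℂ, Fin k → ℂ) 1 Y] in
theorem ev_chart {P : Y → Prop} {y : Y}
    (h : ∀ᶠ z in 𝓝 (chartAt (Fin k → ℂ) y y), P ((chartAt (Fin k → ℂ) y).symm z)) :
    ∀ᶠ z in 𝓝 y, P z := by
  have h1 := ((chartAt (Fin k → ℂ) y).continuousAt (mem_chart_source _ y)).eventually h
  filter_upwards [h1, chart_source_mem_nhds (Fin k → ℂ) y] with z hz hzs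
  rwa [(chartAt (Fin k → ℂ) y).left_inv hzs] at hz

theorem riemM {B : Set Y} (hA : IsAnalyticSet 𝓘(ℂ, Fin k → ℂ) B) (hB : IsNowhereDense B) {y : Y}
    {U : Set Y} (hU : IsOpen U) (hy : y ∈ U) {n : ℕ} {f : Y → (Fin n → ℂ)}
    (hf : MDifferentiableOn 𝓘(ℂ, Fin k → ℂ) 𝓘(ℂ, Fin n → ℂ) f (U \ B)) {C : ℝ}
    (hb : ∀ z ∈ U \ B, ‖f z‖ ≤ C) :
    ∃ U' : Set Y, IsOpen U' ∧ y ∈ U' ∧ U' ⊆ U ∧ ∃ F : Y → (Fin n → ℂ),
      MDifferentiableOn 𝓘(ℂ, Fin k → ℂ) 𝓘(ℂ, Fin n → ℂ) F U' ∧ ∀ z ∈ U', z ∉ B → F z = f z := by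
  obtain ⟨U₁, hU₁, hyU₁, h, hh, hhB, hne⟩ := thin hA hB y
  set c := chartAt (Fin k → ℂ) y with hc
  have hys : y ∈ c.source := mem_chart_source _ y
  have hW : IsOpen (c.target ∩ c.symm ⁻¹' (U ∩ U₁)) :=
    c.isOpen_inter_preimage_symm (hU.inter hU₁)
  have heq : (c.target ∩ c.symm ⁻¹' (U ∩ U₁)) \ (c.symm ⁻¹' B) =
      c.target ∩ c.symm ⁻¹' ((U ∩ U₁) \ B) := by
    ext z; simp only [mem_diff, mem_inter_iff, mem_preimage]; tauto
  obtain ⟨W', hW'o, haW', hW'W, F, hF, hFf⟩ := riemann1 (B := c.symm ⁻¹' B) (h := h ∘ c.symm)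
    (f := f ∘ c.symm) (C := C) (a := c y) hW
    (by rw [heq]; exact c.isOpen_inter_preimage_symm ((hU.inter hU₁).sdiff hA.isClosed))
    (toVec (hh.mono inter_subset_right) y) (fun z hz hzB => hhB _ hz.2.2 hzB)
    ⟨c.map_source hys, by simpa [c.left_inv hys] using ⟨hy, hyU₁⟩⟩
    (fun h0 => hne (ev_chart (P := fun z => h z = 0) h0))
    (by rw [heq]; exact toVec (hf.mono fun z hz => ⟨hz.1.1, hz.2⟩) y)
    (fun z hz => hb _ ⟨hz.1.2.1, hz.2⟩)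
  refine ⟨c.source ∩ c ⁻¹' W', c.isOpen_inter_preimage hW'o, ⟨hys, haW'⟩, ?_, F ∘ c, ?_, ?_⟩
  · intro z hz
    have := (hW'W hz.2).2.1
    rwa [c.left_inv hz.1] at this
  · exact (mdifferentiableOn_iff_differentiableOn.2 hF).comp
      ((mdifferentiable_chart (I := 𝓘(ℂ, Fin k → ℂ)) y).1.mono inter_subset_left) (fun _ h => h.2)
  · intro z hz hzB
    have := hFf (c z) hz.2 (by simpa [c.left_inv hz.1] using hzB)
    simpa [c.left_inv hz.1] using this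

theorem tendsto_of_bdd {B : Set Y} (hA : IsAnalyticSet 𝓘(ℂ, Fin k → ℂ) B) (hB : IsNowhereDense B)
    {y : Y} {U : Set Y} (hU : IsOpen U) (hy : y ∈ U) {n : ℕ} {f : Y → (Fin n → ℂ)}
    (hf : MDifferentiableOn 𝓘(ℂ, Fin k → ℂ) 𝓘(ℂ, Fin n → ℂ) f (U \ B)) {C : ℝ}
    (hb : ∀ z ∈ U \ B, ‖f z‖ ≤ C) : ∃ c, Tendsto f (𝓝[Bᶜ] y) (𝓝 c) := by
  obtain ⟨U', hU', hyU', -, F, hF, hFf⟩ := riemM hA hB hU hy hf hb
  refine ⟨F y, ?_⟩
  have h1 : Tendsto F (𝓝[Bᶜ] y) (𝓝 (F y)) :=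
    (hF.continuousOn.continuousAt (hU'.mem_nhds hyU')).tendsto.mono_left nhdsWithin_le_nhds
  apply h1.congr'
  filter_upwards [mem_nhdsWithin_of_mem_nhds (hU'.mem_nhds hyU'), self_mem_nhdsWithin] with z h1 h2
  exact hFf z h1 h2

theorem sep_alt {X : Type*} [TopologicalSpace X] {B : Set Y}
    (hA : IsAnalyticSet 𝓘(ℂ, Fin k → ℂ) B) (hB : IsNowhereDense B) {φ : Y → X}
    (hφ : ContinuousOn φ Bᶜ) {y : Y} {V : Set X} (hV : IsOpen V)
    (h : ∀ᶠ z in 𝓝[Bᶜ] y, φ z ∉ frontier V) (h1 : ∃ᶠ z in 𝓝[Bᶜ] y, φ z ∈ V)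
    (h2 : ∃ᶠ z in 𝓝[Bᶜ] y, φ z ∉ V) : False := by
  classical
  rw [eventually_nhdsWithin_iff] at h
  obtain ⟨U, hU1, hU, hyU⟩ := _root_.mem_nhds_iff.1 h
  let f : Y → (Fin 1 → ℂ) := fun z => if φ z ∈ V then 1 else 0
  have hf : MDifferentiableOn 𝓘(ℂ, Fin k → ℂ) 𝓘(ℂ, Fin 1 → ℂ) f (U \ B) := by
    intro z hz
    apply MDifferentiableAt.mdifferentiableWithinAt
    have hc : ContinuousAt φ z := hφ.continuousAt (hA.isClosed.isOpen_compl.mem_nhds hz.2)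
    by_cases hzV : φ z ∈ V
    · have : f =ᶠ[𝓝 z] fun _ => 1 := by
        filter_upwards [hc.eventually (hV.mem_nhds hzV)] with w hw
        have hw' : φ w ∈ V := hw
        simp [f, hw']
      exact mdifferentiableAt_const.congr_of_eventuallyEq this
    · have h3 : φ z ∉ closure V := fun h4 => hU1 hz.1 hz.2 ⟨h4, by rwa [hV.interior_eq]⟩
      have : f =ᶠ[𝓝 z] fun _ => 0 := by
        filter_upwards [hc.eventually (isClosed_closure.isOpen_compl.mem_nhds h3)] with w hw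
        have : φ w ∉ V := fun h5 => hw (subset_closure h5)
        simp [f, this]
      exact mdifferentiableAt_const.congr_of_eventuallyEq this
  obtain ⟨c, hc⟩ := tendsto_of_bdd hA hB hU hyU hf (C := 1) (by
    intro z _
    by_cases hzV : φ z ∈ V <;> simp [f, hzV])
  have e1 : c = 1 := tendsto_nhds_unique_of_frequently_eq hc tendsto_const_nhds
    (h1.mono fun z hz => by simp [f, hz])
  have e2 : c = 0 := tendsto_nhds_unique_of_frequently_eq hc tendsto_const_nhds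
    (h2.mono fun z hz => by simp [f, hz])
  have := congrFun (e1.symm.trans e2) 0
  simp at this

theorem exists_lim {X : Type*} [TopologicalSpace X] {B : Set Y}
    (hA : IsAnalyticSet 𝓘(ℂ, Fin k → ℂ) B) (hB : IsNowhereDense B) {φ : Y → X}
    (hφ : ContinuousOn φ Bᶜ) {y : Y} {K : Set X} (hK : IsCompact K)
    (hφK : ∀ᶠ z in 𝓝[Bᶜ] y, φ z ∈ K)
    (hsep : ∀ x₁ x₂, MapClusterPt x₁ (𝓝[Bᶜ] y) φ → MapClusterPt x₂ (𝓝[Bᶜ] y) φ → x₁ ≠ x₂ →
      ∃ V : Set X, IsOpen V ∧ x₁ ∈ V ∧ x₂ ∉ closure V ∧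
        ∀ x ∈ frontier V, ¬ MapClusterPt x (𝓝[Bᶜ] y) φ) :
    ∃ x, Tendsto φ (𝓝[Bᶜ] y) (𝓝 x) := by
  have := nebot hB y
  obtain ⟨x₀, -, hx₀⟩ := hK.exists_mapClusterPt_of_frequently hφK.frequently
  refine ⟨x₀, hK.tendsto_nhds_of_unique_mapClusterPt hφK fun x _ hx => ?_⟩
  by_contra hne
  obtain ⟨V, hV, h1, h2, h3⟩ := hsep x x₀ hx hx₀ hne
  refine sep_alt hA hB hφ (y := y) hV ?_ (hx.frequently (hV.mem_nhds h1)) ?_
  · by_contra hcon
    rw [Filter.not_eventually] at hcon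
    have h4 : ∃ᶠ z in 𝓝[Bᶜ] y, φ z ∈ K ∩ frontier V :=
      (hcon.and_eventually hφK).mono fun z hz => ⟨hz.2, not_not.1 hz.1⟩
    obtain ⟨x', hx', hx''⟩ := (hK.inter_right isClosed_frontier).exists_mapClusterPt_of_frequently h4
    exact h3 x' hx'.2 hx''
  · exact (hx₀.frequently (isClosed_closure.isOpen_compl.mem_nhds h2)).mono
      fun z hz h5 => hz (subset_closure h5)

variable {m : ℕ} {X : Type*} [TopologicalSpace X] [ChartedSpace (Fin m → ℂ) X]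
  [IsManifold 𝓘(ℂ, Fin m → ℂ) 1 X]

theorem ext_local {B : Set Y} (hA : IsAnalyticSet 𝓘(ℂ, Fin k → ℂ) B) (hB : IsNowhereDense B)
    {φ : Y → X} (hφ : MDifferentiableOn 𝓘(ℂ, Fin k → ℂ) 𝓘(ℂ, Fin m → ℂ) φ Bᶜ) {y : Y} {x : X}
    (h : Tendsto φ (𝓝[Bᶜ] y) (𝓝 x)) :
    ∃ U : Set Y, IsOpen U ∧ y ∈ U ∧ ∃ G : Y → X,
      MDifferentiableOn 𝓘(ℂ, Fin k → ℂ) 𝓘(ℂ, Fin m → ℂ) G U ∧ ∀ z ∈ U, z ∉ B → G z = φ z := by
  have := nebot hB y
  set c := chartAt (Fin m → ℂ) x with hc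
  have hxs : x ∈ c.source := mem_chart_source _ x
  have hV : c.source ∩ c ⁻¹' ball (c x) 1 ∈ 𝓝 x :=
    (c.isOpen_inter_preimage isOpen_ball).mem_nhds ⟨hxs, mem_ball_self one_pos⟩
  have h1 := h.eventually hV
  rw [eventually_nhdsWithin_iff] at h1
  obtain ⟨U, hU1, hU, hyU⟩ := _root_.mem_nhds_iff.1 h1
  obtain ⟨U', hU', hyU', hU'U, F, hF, hFf⟩ := riemM hA hB hU hyU (f := c ∘ φ) (C := ‖c x‖ + 1)
    ((mdifferentiable_chart (I := 𝓘(ℂ, Fin m → ℂ)) x).1.comp (hφ.mono fun z hz => hz.2)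
      (fun z hz => (hU1 hz.1 hz.2).1))
    (fun z hz => by
      have h2 : c (φ z) ∈ ball (c x) 1 := (hU1 hz.1 hz.2).2
      exact (norm_lt_of_mem_ball h2).le)
  have hFy : F y = c x := by
    have h2 : Tendsto F (𝓝[Bᶜ] y) (𝓝 (F y)) :=
      (hF.continuousOn.continuousAt (hU'.mem_nhds hyU')).tendsto.mono_left nhdsWithin_le_nhds
    have h3 : Tendsto (c ∘ φ) (𝓝[Bᶜ] y) (𝓝 (c x)) := (c.continuousAt hxs).tendsto.comp h
    refine tendsto_nhds_unique_of_eventuallyEq h2 h3 ?_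
    filter_upwards [mem_nhdsWithin_of_mem_nhds (hU'.mem_nhds hyU'), self_mem_nhdsWithin]
      with z h4 h5
    exact hFf z h4 h5
  refine ⟨U' ∩ F ⁻¹' c.target, hF.continuousOn.isOpen_inter_preimage hU' c.open_target,
    ⟨hyU', by rw [mem_preimage, hFy]; exact c.map_source hxs⟩, c.symm ∘ F, ?_, ?_⟩
  · exact (mdifferentiable_chart (I := 𝓘(ℂ, Fin m → ℂ)) x).2.comp (hF.mono inter_subset_left)
      (fun z hz => hz.2)
  · intro z hz hzB
    rw [Function.comp_apply, hFf z hz.1 hzB, Function.comp_apply,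
      c.left_inv (hU1 (hU'U hz.1) hzB).1]

theorem exists_ext [T2Space X] {B : Set Y} (hA : IsAnalyticSet 𝓘(ℂ, Fin k → ℂ) B)
    (hB : IsNowhereDense B)
    {φ : Y → X} (hφ : MDifferentiableOn 𝓘(ℂ, Fin k → ℂ) 𝓘(ℂ, Fin m → ℂ) φ Bᶜ) :
    ∃ (L : Y → X) (P : Set Y), IsOpen P ∧
      MDifferentiableOn 𝓘(ℂ, Fin k → ℂ) 𝓘(ℂ, Fin m → ℂ) L P ∧
      (∀ y x, Tendsto φ (𝓝[Bᶜ] y) (𝓝 x) → y ∈ P) ∧
      (∀ y ∈ P, Tendsto φ (𝓝[Bᶜ] y) (𝓝 (L y))) ∧ ∀ y, y ∉ B → y ∈ P ∧ L y = φ y := by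
  let L : Y → X := fun y => @limUnder _ _ _ ⟨φ y⟩ (𝓝[Bᶜ] y) φ
  have hL : ∀ y x, Tendsto φ (𝓝[Bᶜ] y) (𝓝 x) → L y = x := by
    intro y x h
    have := nebot hB y
    exact h.limUnder_eq
  have hloc : ∀ y x, Tendsto φ (𝓝[Bᶜ] y) (𝓝 x) → ∃ U : Set Y, IsOpen U ∧ y ∈ U ∧ ∃ G : Y → X,
      MDifferentiableOn 𝓘(ℂ, Fin k → ℂ) 𝓘(ℂ, Fin m → ℂ) G U ∧
      ∀ z ∈ U, Tendsto φ (𝓝[Bᶜ] z) (𝓝 (G z)) := by
    intro y x h
    obtain ⟨U, hU, hyU, G, hG, hGφ⟩ := ext_local hA hB hφ h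
    refine ⟨U, hU, hyU, G, hG, fun z hz => ?_⟩
    have h1 : Tendsto G (𝓝[Bᶜ] z) (𝓝 (G z)) :=
      (hG.continuousOn.continuousAt (hU.mem_nhds hz)).tendsto.mono_left nhdsWithin_le_nhds
    apply h1.congr'
    filter_upwards [mem_nhdsWithin_of_mem_nhds (hU.mem_nhds hz), self_mem_nhdsWithin] with w h1 h2
    exact hGφ w h1 h2
  refine ⟨L, {y | ∃ x, Tendsto φ (𝓝[Bᶜ] y) (𝓝 x)}, ?_, ?_, fun y x h => ⟨x, h⟩, ?_, ?_⟩
  · rw [isOpen_iff_mem_nhds]
    rintro y ⟨x, h⟩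
    obtain ⟨U, hU, hyU, G, -, hG⟩ := hloc y x h
    filter_upwards [hU.mem_nhds hyU] with z hz using ⟨_, hG z hz⟩
  · rintro y ⟨x, h⟩
    obtain ⟨U, hU, hyU, G, hGd, hG⟩ := hloc y x h
    have : L =ᶠ[𝓝 y] G := by
      filter_upwards [hU.mem_nhds hyU] with z hz using hL z _ (hG z hz)
    exact ((hGd.mdifferentiableAt (hU.mem_nhds hyU)).congr_of_eventuallyEq
      this).mdifferentiableWithinAt
  · rintro y ⟨x, h⟩
    rw [hL y x h]
    exact h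
  · intro y hy
    have h1 : Tendsto φ (𝓝[Bᶜ] y) (𝓝 (φ y)) := hφ.continuousOn y hy
    exact ⟨⟨_, h1⟩, hL y _ h1⟩

theorem nowhereDense_of_ne [PreconnectedSpace Y] {A : Set Y}
    (hA : IsAnalyticSet 𝓘(ℂ, Fin k → ℂ) A) (hne : A ≠ univ) : IsNowhereDense A := by
  rw [hA.isClosed.isNowhereDense_iff]
  have hcl : IsClosed (interior A) := by
    rw [← closure_subset_iff_isClosed]
    intro y hy
    obtain ⟨U, hU, hyU, n, g, hg, hAg⟩ := hA y
    set c := chartAt (Fin k → ℂ) y with hc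
    have hys : y ∈ c.source := mem_chart_source _ y
    have hW : IsOpen (c.target ∩ c.symm ⁻¹' U) := c.isOpen_inter_preimage_symm hU
    obtain ⟨r, hr, hrW⟩ := Metric.isOpen_iff.1 hW (c y)
      ⟨c.map_source hys, by simpa [c.left_inv hys] using hyU⟩
    have hd := (toVec hg y).mono hrW
    have hall : ∀ i, ∀ᶠ z in 𝓝 (c y), g (c.symm z) i = 0 := by
      intro i
      by_contra hcon
      obtain ⟨w, hw1, hw2⟩ := _root_.mem_closure_iff.1 hy _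
        (c.isOpen_inter_preimage (isOpen_ball (x := c y) (ε := r))) ⟨hys, mem_ball_self hr⟩
      obtain ⟨z, hz, hz0⟩ := Helper417.Mer.ThinAux.ball_nonzero hr
        (g := fun z => g (c.symm z) i) (differentiableOn_pi.1 hd i) hcon
        (c.isOpen_inter_preimage_symm (isOpen_interior (s := A)))
        ⟨c w, ⟨c.map_source hw1.1, by simpa [c.left_inv hw1.1] using hw2⟩, hw1.2⟩
      apply hz0
      have := (hAg _ (hrW hz.2).2).1 (interior_subset hz.1.2)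
      rw [this]; rfl
    rw [mem_interior_iff_mem_nhds]
    have h1 := ev_chart (P := fun z => ∀ i, g z i = 0) (eventually_all.2 hall)
    filter_upwards [h1, hU.mem_nhds hyU] with z hz hzU
    exact (hAg z hzU).2 (funext hz)
  rcases isClopen_iff.1 ⟨hcl, isOpen_interior⟩ with h | h
  · exact h
  · exact absurd (univ_subset_iff.1 (h ▸ interior_subset)) hne

theorem smallM [SecondCountableTopology Y] (hk : k = 2) {A : Set Y}
    (hA : IsAnalyticSet 𝓘(ℂ, Fin k → ℂ) A) (hB : IsNowhereDense A)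
    {F : Type*} [NormedAddCommGroup F] [NormedSpace ℂ F] [CompleteSpace F] {G : Y → F}
    (hG : MDifferentiable 𝓘(ℂ, Fin k → ℂ) 𝓘(ℂ, F) G) : Small G A := by
  apply Small.of_local
  intro y _
  obtain ⟨U, hU, hyU, h, hh, hhA, hne⟩ := thin hA hB y
  set c := chartAt (Fin k → ℂ) y with hc
  have hys : y ∈ c.source := mem_chart_source _ y
  have hW : IsOpen (c.target ∩ c.symm ⁻¹' U) := c.isOpen_inter_preimage_symm hU
  obtain ⟨r, hr, hrW⟩ := Metric.isOpen_iff.1 hW (c y)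
    ⟨c.map_source hys, by simpa [c.left_inv hys] using hyU⟩
  have hd := (toVec hh y).mono hrW
  have hS := small_zero (E := Fin k → ℂ) (by simp [hk]) isOpen_ball
    ((toVec (hG.mdifferentiableOn (s := U)) y).mono hrW) hd (by
      intro a ha hev
      obtain ⟨O, hO1, hO, haO⟩ := _root_.mem_nhds_iff.1 hev
      obtain ⟨z, hz, hz0⟩ := Helper417.Mer.ThinAux.ball_nonzero hr hd
        (fun h0 => hne (ev_chart (P := fun z => h z = 0) h0)) hO ⟨a, haO, ha⟩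
      exact hz0 (hO1 hz.1))
  refine ⟨c.source ∩ c ⁻¹' ball (c y) r,
    (c.isOpen_inter_preimage isOpen_ball).mem_nhds ⟨hys, mem_ball_self hr⟩, hS.image.mono ?_⟩
  rintro z ⟨hz, hzA⟩
  refine ⟨c z, ⟨hz.2, ?_⟩, c.left_inv hz.1⟩
  have h1 := (hrW hz.2).2
  rw [mem_preimage, c.left_inv hz.1] at h1
  rw [Function.comp_apply, c.left_inv hz.1]
  exact hhA z h1 hzA

theorem graph_analytic [T2Space X] {g : Y → X}
    (hg : MDifferentiable 𝓘(ℂ, Fin k → ℂ) 𝓘(ℂ, Fin m → ℂ) g) :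
    IsAnalyticSet (𝓘(ℂ, Fin m → ℂ).prod 𝓘(ℂ, Fin k → ℂ)) {z : X × Y | z.1 = g z.2} := by
  rintro ⟨x, y⟩
  have hgc : Continuous fun z : X × Y => g z.2 := hg.continuous.comp continuous_snd
  by_cases hxy : x = g y
  · set c := chartAt (Fin m → ℂ) x with hc
    have hxs : x ∈ c.source := mem_chart_source _ x
    refine ⟨{z | z.1 ∈ c.source ∧ g z.2 ∈ c.source},
      (c.open_source.preimage continuous_fst).inter (c.open_source.preimage hgc),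
      ⟨hxs, hxy ▸ hxs⟩, m, fun z => c z.1 - c (g z.2), ?_, ?_⟩
    · have h0 := (mdifferentiable_chart (I := 𝓘(ℂ, Fin m → ℂ)) x).1
      have h1 : MDifferentiableOn (𝓘(ℂ, Fin m → ℂ).prod 𝓘(ℂ, Fin k → ℂ)) 𝓘(ℂ, Fin m → ℂ)
          (fun z : X × Y => c z.1) {z | z.1 ∈ c.source ∧ g z.2 ∈ c.source} :=
        h0.comp mdifferentiable_fst.mdifferentiableOn (fun z hz => hz.1)
      have h2 : MDifferentiableOn (𝓘(ℂ, Fin m → ℂ).prod 𝓘(ℂ, Fin k → ℂ)) 𝓘(ℂ, Fin m → ℂ)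
          (fun z : X × Y => c (g z.2)) {z | z.1 ∈ c.source ∧ g z.2 ∈ c.source} :=
        h0.comp (hg.comp mdifferentiable_snd).mdifferentiableOn (fun z hz => hz.2)
      have h3 := h1.prodMk_space h2
      have h4 : Differentiable ℂ (fun q : (Fin m → ℂ) × (Fin m → ℂ) => q.1 - q.2) := by fun_prop
      exact h4.mdifferentiable.comp_mdifferentiableOn h3
    · intro z hz
      rw [sub_eq_zero]
      exact ⟨fun h => by rw [show z.1 = g z.2 from h], fun h => c.injOn hz.1 hz.2 h⟩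
  · refine ⟨{z | z.1 ≠ g z.2}, isOpen_ne_fun continuous_fst hgc, hxy, 1, fun _ => 1,
      mdifferentiableOn_const, fun z hz => ⟨fun h => absurd h hz, fun h => ?_⟩⟩
    have := congrFun h 0
    simp at this

end Charts

end Pool.Agent.H69Z.Bim
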