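import Mathlib
import Pool.Agent.H69Z.Bim.Mfd
import Pool.Agent.H69Z.Bim.Ell
import Pool.Agent.Helper10.UC.J_mem_MM_iff

set_option autoImplicit false

open Set Metric Filter Topology
open scoped Manifold ContDiff

namespace Pool.Agent.H69Z.Bim

open Pool.Agent.Helper10.UC

theorem tan_of_curve {a : ℂ → Fin 4 → ℂ} {d : Fin 4 → ℂ} (ha : HasDerivAt a d 0)
    (h : ∀ᶠ t in 𝓝 0, EC (a t)) : Tan (a 0) d := by
  have hc : ∀ n, HasDerivAt (fun t => a t n) (d n) 0 := hasDerivAt_pi.1 ha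
  constructor
  · have h1 := (hc 2).mul (hc 2)
    have h2 := (((hc 0).mul (hc 0)).const_mul 2).add ((hc 1).mul (hc 1))
    have h3 := h2.congr_of_eventuallyEq (f₁ := (fun t => a t 2) * fun t => a t 2) (by
      filter_upwards [h] with t ht
      simp only [Pi.mul_apply, Pi.add_apply]
      linear_combination ht.1)
    have h4 := h1.unique h3
    linear_combination h4 / 2
  · have h1 := (hc 3).mul (hc 3)
    have h2 := (((hc 0).mul (hc 0)).const_mul 3).add ((hc 1).mul (hc 1))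
    have h3 := h2.congr_of_eventuallyEq (f₁ := (fun t => a t 3) * fun t => a t 3) (by
      filter_upwards [h] with t ht
      simp only [Pi.mul_apply, Pi.add_apply]
      linear_combination ht.2)
    have h4 := h1.unique h3
    linear_combination h4 / 2

theorem compat0 {E : Type*} [NormedAddCommGroup E] [NormedSpace ℂ E] {O : Set E} (hO : IsOpen O)
    {z₀ : E} (hz₀ : z₀ ∈ O) {α₁ α₂ : E → Fin 4 → ℂ} (h₁ : DifferentiableOn ℂ α₁ O)
    (h₂ : DifferentiableOn ℂ α₂ O) {W₁ W₂ : Set (Fin 4 → ℂ)} (hW₁ : IsOpen W₁) (hW₂ : IsOpen W₂)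
    {ζ₁ ζ₂ : (Fin 4 → ℂ) → ℂ} (hζ₁ : DifferentiableOn ℂ ζ₁ W₁) (hζ₂ : DifferentiableOn ℂ ζ₂ W₂)
    (r₁ : ∀ a ∈ W₁, EC a → ∀ d, Tan a d → Rel a d (fderiv ℂ ζ₁ a d))
    (r₂ : ∀ a ∈ W₂, EC a → ∀ d, Tan a d → Rel a d (fderiv ℂ ζ₂ a d))
    (h : ∀ z ∈ O, α₁ z ∈ W₁ ∧ α₂ z ∈ W₂ ∧ α₁ z ≠ 0 ∧ α₂ z ≠ 0 ∧ EC (α₁ z) ∧ EC (α₂ z) ∧
      ∃ c : ℂ, α₂ z = c • α₁ z) :
    ∀ᶠ w in 𝓝 z₀, ζ₁ (α₁ w) - ζ₂ (α₂ w) = ζ₁ (α₁ z₀) - ζ₂ (α₂ z₀) := by
  have hd : ∀ z ∈ O, HasFDerivAt (fun w => ζ₁ (α₁ w) - ζ₂ (α₂ w))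
      ((fderiv ℂ ζ₁ (α₁ z)).comp (fderiv ℂ α₁ z) - (fderiv ℂ ζ₂ (α₂ z)).comp (fderiv ℂ α₂ z)) z := by
    intro z hz
    exact ((hζ₁.differentiableAt (hW₁.mem_nhds (h z hz).1)).hasFDerivAt.comp z
      (h₁.differentiableAt (hO.mem_nhds hz)).hasFDerivAt).sub
      ((hζ₂.differentiableAt (hW₂.mem_nhds (h z hz).2.1)).hasFDerivAt.comp z
      (h₂.differentiableAt (hO.mem_nhds hz)).hasFDerivAt)
  have hzero : ∀ z ∈ O, (fderiv ℂ ζ₁ (α₁ z)).comp (fderiv ℂ α₁ z) -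
      (fderiv ℂ ζ₂ (α₂ z)).comp (fderiv ℂ α₂ z) = 0 := by
    intro z hz
    apply ContinuousLinearMap.ext
    intro v
    obtain ⟨m1, m2, n1, n2, e1, e2, -⟩ := h z hz
    have hl : HasDerivAt (fun t : ℂ => z + t • v) v 0 := Helper540.line_hasDerivAt z v 0
    have hz0 : z + (0 : ℂ) • v = z := by simp
    have hc1 : HasDerivAt (fun t : ℂ => α₁ (z + t • v)) (fderiv ℂ α₁ z v) 0 :=
      HasFDerivAt.comp_hasDerivAt_of_eq (0 : ℂ) (h₁.differentiableAt (hO.mem_nhds hz)).hasFDerivAt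
        hl hz0.symm
    have hc2 : HasDerivAt (fun t : ℂ => α₂ (z + t • v)) (fderiv ℂ α₂ z v) 0 :=
      HasFDerivAt.comp_hasDerivAt_of_eq (0 : ℂ) (h₂.differentiableAt (hO.mem_nhds hz)).hasFDerivAt
        hl hz0.symm
    have hev : ∀ᶠ t : ℂ in 𝓝 0, z + t • v ∈ O :=
      hl.continuousAt.eventually (by simp only [hz0]; exact hO.mem_nhds hz)
    have t1 := tan_of_curve hc1 (hev.mono fun t ht => (h _ ht).2.2.2.2.1)
    have t2 := tan_of_curve hc2 (hev.mono fun t ht => (h _ ht).2.2.2.2.2.1)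
    simp only [hz0] at t1 t2
    obtain ⟨i, hi⟩ := Function.ne_iff.1 n1
    have hi' : α₁ z i ≠ 0 := hi
    have hc1i := hasDerivAt_pi.1 hc1 i
    have hc2i := hasDerivAt_pi.1 hc2 i
    have hlam := hc2i.div hc1i (by simpa using hi')
    have hsm := hlam.smul hc1
    have hne : ∀ᶠ t : ℂ in 𝓝 0, α₁ (z + t • v) i ≠ 0 :=
      hc1i.continuousAt.eventually_ne (by simpa using hi')
    have hall : ∀ w ∈ O, α₁ w i ≠ 0 → α₂ w = (α₂ w i / α₁ w i) • α₁ w := by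
      intro w hw hwi
      obtain ⟨c, hc⟩ := (h w hw).2.2.2.2.2.2
      rw [hc]
      simp [hwi]
    have hsm2 := hsm.congr_of_eventuallyEq (f₁ := fun t : ℂ => α₂ (z + t • v)) (by
      filter_upwards [hev, hne] with t ht hti
      exact hall _ ht hti)
    have hu := hc2.unique hsm2
    simp only [Pi.div_apply, hz0] at hu
    have R1 := (r₁ _ m1 e1 _ t1).scale (α₂ z i / α₁ z i)
      ((fderiv ℂ α₂ z v i * α₁ z i - α₂ z i * fderiv ℂ α₁ z v i) / α₁ z i ^ 2)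
    rw [← hu, ← hall z hz hi'] at R1
    have R2 := r₂ _ m2 e2 _ t2
    have := Rel.unique n2 e2 R1 R2
    simp [this]
  obtain ⟨r, hr, hrO⟩ := Metric.isOpen_iff.1 hO z₀ hz₀
  filter_upwards [ball_mem_nhds z₀ hr] with w hw
  letI : NormedSpace ℝ E := NormedSpace.restrictScalars ℝ ℂ E
  exact isOpen_ball.is_const_of_fderiv_eq_zero (𝕜 := ℂ) (convex_ball z₀ r).isPreconnected
    (fun z hz => (hd z (hrO hz)).differentiableAt.differentiableWithinAt)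
    (fun z hz => by rw [(hd z (hrO hz)).fderiv, hzero z (hrO hz)]; rfl) hw (mem_ball_self hr)

variable {m : ℕ} {X : Type*} [TopologicalSpace X] [ChartedSpace (Fin m → ℂ) X]
  [IsManifold 𝓘(ℂ, Fin m → ℂ) 1 X] [SimplyConnectedSpace X]

theorem exists_prim (U : X → Set X) (hU : ∀ x, IsOpen (U x)) (hx : ∀ x, x ∈ U x)
    (α : X → X → Fin 4 → ℂ)
    (hα : ∀ x, MDifferentiableOn 𝓘(ℂ, Fin m → ℂ) 𝓘(ℂ, Fin 4 → ℂ) (α x) (U x))
    (hE : ∀ x, ∀ z ∈ U x, α x z ≠ 0 ∧ EC (α x z))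
    (hc : ∀ x x', ∀ z ∈ U x ∩ U x', ∃ c : ℂ, α x' z = c • α x z) :
    ∃ s : X → ℂ, MDifferentiable 𝓘(ℂ, Fin m → ℂ) 𝓘(ℂ, ℂ) s ∧
      ∀ x, ∀ᶠ z in 𝓝 x, s z = s x → ∃ c : ℂ, α x z = c • α x x := by
  have : LocallyPathConnectedSpace X := ChartedSpace.locallyPathConnectedSpace (Fin m → ℂ) X
  choose W hW haW ζ hζ hR hI using fun x => ell_local (hE x x (hx x)).1 (hE x x (hx x)).2
  have hV : ∀ x, IsOpen (U x ∩ α x ⁻¹' W x) := fun x =>
    (hα x).continuousOn.isOpen_inter_preimage (hU x) (hW x)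
  obtain ⟨s, hs⟩ := develop (fun x => U x ∩ α x ⁻¹' W x) hV (fun x => ⟨hx x, haW x⟩)
    (fun x z => ζ x (α x z)) (by
      intro a b z hz
      set c := chartAt (Fin m → ℂ) z with hcd
      have hzs : z ∈ c.source := mem_chart_source _ z
      have h1 := compat0 (c.isOpen_inter_preimage_symm ((hV a).inter (hV b))) (z₀ := c z)
        ⟨c.map_source hzs, by simpa [c.left_inv hzs] using hz⟩
        (toVec ((hα a).mono fun y hy => hy.1.1) z) (toVec ((hα b).mono fun y hy => hy.2.1) z)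
        (hW a) (hW b) (hζ a) (hζ b) (hR a) (hR b) (fun y hy =>
          ⟨hy.2.1.2, hy.2.2.2, (hE a _ hy.2.1.1).1, (hE b _ hy.2.2.1).1, (hE a _ hy.2.1.1).2,
            (hE b _ hy.2.2.1).2, hc a b _ ⟨hy.2.1.1, hy.2.2.1⟩⟩)
      simp only [Function.comp_apply, ← hcd, c.left_inv hzs] at h1
      exact ev_chart (P := fun w => ζ a (α a w) - ζ b (α b w) = ζ a (α a z) - ζ b (α b z)) h1)
  refine ⟨s, fun x => ?_, fun x => ?_⟩
  · have h1 : MDifferentiableAt 𝓘(ℂ, Fin m → ℂ) 𝓘(ℂ, ℂ)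
        (fun z => ζ x (α x z) + (s x - ζ x (α x x))) x := by
      have h2 : DifferentiableAt ℂ (fun a => ζ x a + (s x - ζ x (α x x))) (α x x) :=
        ((hζ x).differentiableAt ((hW x).mem_nhds (haW x))).add_const _
      exact h2.mdifferentiableAt.comp x ((hα x).mdifferentiableAt ((hU x).mem_nhds (hx x)))
    apply h1.congr_of_eventuallyEq
    filter_upwards [hs x] with z hz
    rw [← hz]; ring
  · filter_upwards [hs x, (hV x).mem_nhds ⟨hx x, haW x⟩] with z hz hzV hsz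
    rw [hsz, sub_right_inj] at hz
    exact hI x _ (haW x) (hE x x (hx x)).2 _ hzV.2 (hE x z hzV.1).2 hz.symm

theorem ec_smul {a : Fin 4 → ℂ} (h : EC a) (c : ℂ) : EC (c • a) := by
  obtain ⟨h1, h2⟩ := h
  simp only [EC, Pi.smul_apply, smul_eq_mul]
  exact ⟨by linear_combination c ^ 2 * h1, by linear_combination c ^ 2 * h2⟩

theorem exists_S [T1Space X] {p : X → MM} (hp : IsLocalHomeomorph p)
    (hol : IsHolToProj m (fun x => (p x).1)) :
    ∃ S : X → (Fin 2 → ℂ), MDifferentiable 𝓘(ℂ, Fin m → ℂ) 𝓘(ℂ, Fin 2 → ℂ) S ∧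
      ∀ x, ∀ᶠ x' in 𝓝 x, S x' = S x → x' = x := by
  choose U₀ hU₀ hx₀ v hv hpv using hol
  have hseg : ∀ x, ∀ z ∈ U₀ x, ∃ (a b : Fin 4 → ℂ) (w : ℂ), a ≠ 0 ∧ b ≠ 0 ∧ EC a ∧ EC b ∧
      w ^ 2 = GG a b ∧ v x z = seg a b w := by
    intro x z hz
    obtain ⟨h0, h1⟩ := hpv x z hz
    exact (mem_MM_iff h0).1 (h1 ▸ (p z).2)
  have hij : ∀ x, ∃ q : Fin 4 × Fin 4, v x x (some q) ≠ 0 := by
    intro x
    obtain ⟨a, b, w, ha, hb, -, -, -, h⟩ := hseg x x (hx₀ x)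
    obtain ⟨i, hi⟩ := Function.ne_iff.1 ha
    obtain ⟨j, hj⟩ := Function.ne_iff.1 hb
    exact ⟨(i, j), by rw [h]; exact mul_ne_zero hi hj⟩
  choose q hq using hij
  let U : X → Set X := fun x => U₀ x ∩ (fun z => v x z (some (q x))) ⁻¹' {0}ᶜ
  have hU : ∀ x, IsOpen (U x) := fun x =>
    ((continuous_apply _).comp_continuousOn (hv x).continuousOn).isOpen_inter_preimage (hU₀ x)
      isOpen_compl_singleton
  have hx : ∀ x, x ∈ U x := fun x => ⟨hx₀ x, hq x⟩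
  have hprop : ∀ x x', ∀ z ∈ U₀ x ∩ U₀ x', ∃ c : ℂ, v x' z = c • v x z := by
    intro x x' z hz
    obtain ⟨h0, h1⟩ := hpv x z hz.1
    obtain ⟨h0', h1'⟩ := hpv x' z hz.2
    obtain ⟨c, hc⟩ := (Projectivization.mk_eq_mk_iff' ℂ _ _ h0' h0).1 (h1'.symm.trans h1)
    exact ⟨c, hc.symm⟩
  let LA : Fin 4 → (Ix → ℂ) →L[ℂ] (Fin 4 → ℂ) := fun j =>
    ContinuousLinearMap.pi fun i => ContinuousLinearMap.proj (some (i, j))
  let LB : Fin 4 → (Ix → ℂ) →L[ℂ] (Fin 4 → ℂ) := fun i =>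
    ContinuousLinearMap.pi fun j => ContinuousLinearMap.proj (some (i, j))
  have hLA : ∀ j a b w, LA j (seg a b w) = b j • a := fun j a b w => funext fun i => by
    simp [LA, seg, mul_comm]
  have hLB : ∀ i a b w, LB i (seg a b w) = a i • b := fun i a b w => funext fun j => by
    simp [LB, seg]
  have hnz : ∀ x, ∀ z ∈ U x, ∀ a b w, v x z = seg a b w → a (q x).1 ≠ 0 ∧ b (q x).2 ≠ 0 := by
    intro x z hz a b w h
    have h1 : v x z (some (q x)) ≠ 0 := hz.2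
    rw [h] at h1
    exact mul_ne_zero_iff.1 h1
  obtain ⟨s, hs, hs'⟩ := exists_prim (m := m) U hU hx (fun x z => LA (q x).2 (v x z))
    (fun x => (LA _).differentiable.mdifferentiable.comp_mdifferentiableOn
      ((hv x).mono inter_subset_left))
    (fun x z hz => by
      obtain ⟨a, b, w, ha, hb, hEa, hEb, -, h⟩ := hseg x z hz.1
      have h1 := hnz x z hz a b w h
      rw [h, hLA]
      exact ⟨smul_ne_zero h1.2 ha, ec_smul hEa _⟩)
    (fun x x' z hz => by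
      obtain ⟨a, b, w, ha, hb, hEa, hEb, -, h⟩ := hseg x z hz.1.1
      have h1 := hnz x z hz.1 a b w h
      obtain ⟨c, hc⟩ := hprop x x' z ⟨hz.1.1, hz.2.1⟩
      refine ⟨c * b (q x').2 / b (q x).2, ?_⟩
      rw [hc, h, map_smul, hLA, hLA, smul_smul, smul_smul, div_mul_cancel₀ _ h1.2])
  obtain ⟨t, ht, ht'⟩ := exists_prim (m := m) U hU hx (fun x z => LB (q x).1 (v x z))
    (fun x => (LB _).differentiable.mdifferentiable.comp_mdifferentiableOn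
      ((hv x).mono inter_subset_left))
    (fun x z hz => by
      obtain ⟨a, b, w, ha, hb, hEa, hEb, -, h⟩ := hseg x z hz.1
      have h1 := hnz x z hz a b w h
      rw [h, hLB]
      exact ⟨smul_ne_zero h1.1 hb, ec_smul hEb _⟩)
    (fun x x' z hz => by
      obtain ⟨a, b, w, ha, hb, hEa, hEb, -, h⟩ := hseg x z hz.1.1
      have h1 := hnz x z hz.1 a b w h
      obtain ⟨c, hc⟩ := hprop x x' z ⟨hz.1.1, hz.2.1⟩
      refine ⟨c * a (q x').1 / a (q x).1, ?_⟩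
      rw [hc, h, map_smul, hLB, hLB, smul_smul, smul_smul, div_mul_cancel₀ _ h1.1])
  let L : (ℂ × ℂ) ≃L[ℂ] (Fin 2 → ℂ) := ContinuousLinearEquiv.ofFinrankEq (by simp)
  refine ⟨fun x => L (s x, t x), L.differentiable.mdifferentiable.comp (hs.prodMk_space ht),
    fun x => ?_⟩
  obtain ⟨a, b, w, ha, hb, hEa, hEb, hw, h⟩ := hseg x x (hx₀ x)
  have hab := hnz x x (hx x) a b w h
  have hne : ∀ w', seg a b w' ≠ 0 := fun w' h0 =>
    mul_ne_zero hab.1 hab.2 (congrFun h0 (some ((q x).1, (q x).2)))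
  have hfin : ({Projectivization.mk ℂ (seg a b w) (hne w),
      Projectivization.mk ℂ (seg a b (-w)) (hne (-w))} : Set (PP Ix)).Finite := toFinite _
  obtain ⟨O, hO, hxO, hinj⟩ := hp.isLocallyInjective x
  have hfin2 : (O ∩ (fun z => (p z).1) ⁻¹' {Projectivization.mk ℂ (seg a b w) (hne w),
      Projectivization.mk ℂ (seg a b (-w)) (hne (-w))}).Finite :=
    Set.Finite.of_finite_image (f := fun z => (p z).1) (hfin.subset (by
      rintro _ ⟨z, hz, rfl⟩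
      exact hz.2)) (fun z hz z' hz' he => hinj hz.1 hz'.1 (Subtype.ext he))
  have hcl := (hfin2.subset (diff_subset (t := {x}))).isClosed.isOpen_compl.mem_nhds
    (x := x) (fun h1 => h1.2 rfl)
  filter_upwards [hs' x, ht' x, (hU x).mem_nhds (hx x), hO.mem_nhds hxO, hcl]
    with z h1 h2 hzU hzO h3 hS
  have hS' := L.injective hS
  obtain ⟨c₁, hc₁⟩ := h1 (congrArg Prod.fst hS')
  obtain ⟨c₂, hc₂⟩ := h2 (congrArg Prod.snd hS')
  obtain ⟨a', b', w', -, -, -, -, hw', h'⟩ := hseg x z hzU.1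
  have hab' := hnz x z hzU a' b' w' h'
  rw [h, h', hLA, hLA] at hc₁
  rw [h, h', hLB, hLB] at hc₂
  obtain ⟨e₁, he₁⟩ : ∃ e : ℂ, a' = e • a := ⟨(b' (q x).2)⁻¹ * (c₁ * b (q x).2), by
    rw [mul_smul, mul_smul, ← hc₁, smul_smul, inv_mul_cancel₀ hab'.2, one_smul]⟩
  obtain ⟨e₂, he₂⟩ : ∃ e : ℂ, b' = e • b := ⟨(a' (q x).1)⁻¹ * (c₂ * a (q x).1), by
    rw [mul_smul, mul_smul, ← hc₂, smul_smul, inv_mul_cancel₀ hab'.1, one_smul]⟩
  have hsq : w' ^ 2 = (e₁ * e₂ * w) ^ 2 := by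
    rw [hw', mul_pow, hw, he₁, he₂]
    simp only [GG, Pi.smul_apply, smul_eq_mul]
    ring
  by_contra hzx
  apply h3
  refine ⟨⟨hzO, ?_⟩, hzx⟩
  obtain ⟨h0, h4⟩ := hpv x z hzU.1
  have key : ∀ w'', w' = e₁ * e₂ * w'' → (p z).1 = Projectivization.mk ℂ (seg a b w'') (hne w'') := by
    intro w'' h5
    refine h4.trans ?_
    apply (Projectivization.mk_eq_mk_iff' ℂ _ _ h0 (hne w'')).2
    refine ⟨e₁ * e₂, ?_⟩
    rw [h', he₁, he₂, h5]
    funext n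
    rcases n with _ | ⟨i, j⟩
    · simp [seg]
    · simp only [seg, Pi.smul_apply, smul_eq_mul]; ring
  rcases sq_eq_sq_iff_eq_or_eq_neg.1 hsq with h5 | h5
  · exact Or.inl (key w h5)
  · exact Or.inr (key (-w) (by rw [h5]; ring))

end Pool.Agent.H69Z.Bim
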