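import Mathlib
import Pool.Agent.H69Z.Bim.Mfd

set_option autoImplicit false

open Set Metric Filter Topology
open scoped Manifold ContDiff

namespace Pool.Agent.H69Z.Bim

theorem eq_of_cluster {α β : Type*} [TopologicalSpace β] [T2Space β] {l : Filter α} {f : α → β}
    {a c : β} (h1 : MapClusterPt a l f) (h2 : Tendsto f l (𝓝 c)) : a = c :=
  eq_of_nhds_neBot (ClusterPt.mono h1 h2)

theorem dim_le {m k : ℕ} {X Y : Type*} [TopologicalSpace X] [ChartedSpace (Fin m → ℂ) X]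
    [TopologicalSpace Y] [ChartedSpace (Fin k → ℂ) Y] {f : X → Y} {g : Y → X} {x : X}
    (hf : MDifferentiableAt 𝓘(ℂ, Fin m → ℂ) 𝓘(ℂ, Fin k → ℂ) f x)
    (hg : MDifferentiableAt 𝓘(ℂ, Fin k → ℂ) 𝓘(ℂ, Fin m → ℂ) g (f x))
    (h : g ∘ f =ᶠ[𝓝 x] id) : m ≤ k := by
  have h1 := hg.hasMFDerivAt.comp x hf.hasMFDerivAt
  have h2 := (hasMFDerivAt_id (I := 𝓘(ℂ, Fin m → ℂ)) x).congr_of_eventuallyEq h
  have h3 := hasMFDerivAt_unique h1 h2
  let a : (Fin m → ℂ) →L[ℂ] (Fin k → ℂ) := mfderiv 𝓘(ℂ, Fin m → ℂ) 𝓘(ℂ, Fin k → ℂ) f x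
  let b : (Fin k → ℂ) →L[ℂ] (Fin m → ℂ) := mfderiv 𝓘(ℂ, Fin k → ℂ) 𝓘(ℂ, Fin m → ℂ) g (f x)
  have h4 : ∀ v, b (a v) = v := fun v => congrArg (fun T : (Fin m → ℂ) →L[ℂ] (Fin m → ℂ) => T v) h3
  have h5 : Function.Injective (a : (Fin m → ℂ) →ₗ[ℂ] (Fin k → ℂ)) := by
    intro v w hvw
    rw [← h4 v, ← h4 w]
    exact congrArg b hvw
  simpa using LinearMap.finrank_le_finrank_of_injective h5

theorem main1 {k : ℕ} {X Y : Type*} [TopologicalSpace X] [ChartedSpace (Fin 2 → ℂ) X]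
    [IsManifold 𝓘(ℂ, Fin 2 → ℂ) 1 X] [T2Space X]
    [TopologicalSpace Y] [ChartedSpace (Fin k → ℂ) Y] [IsManifold 𝓘(ℂ, Fin k → ℂ) 1 Y]
    [TopologicalSpace.MetrizableSpace Y] [SecondCountableTopology Y] [PreconnectedSpace Y]
    {S : X → (Fin 2 → ℂ)} (hS : MDifferentiable 𝓘(ℂ, Fin 2 → ℂ) 𝓘(ℂ, Fin 2 → ℂ) S)
    (hdisc : ∀ x, ∀ᶠ x' in 𝓝 x, S x' = S x → x' = x) (h : Bimeromorphic 2 k X Y) :
    ∃ (P : Set X) (L : X → Y), IsOpen P ∧ ContinuousOn L P ∧ InjOn L P ∧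
      (∀ O ⊆ P, IsOpen O → IsOpen (L '' O)) ∧ (S '' Pᶜ).Countable := by
  obtain ⟨Γ, ⟨hΓa, hΓne, hirr⟩, hp1, ⟨A, hA, hAn, ψ, hψ, hψΓ⟩, hp2, ⟨B, hB, hBn, φ, hφ, hφΓ⟩⟩ := h
  have : LocallyCompactSpace X := ChartedSpace.locallyCompactSpace (Fin 2 → ℂ) X
  have : LocallyCompactSpace Y := ChartedSpace.locallyCompactSpace (Fin k → ℂ) Y
  have hKφ : ∀ y, ∃ K : Set X, IsCompact K ∧ ∀ᶠ z in 𝓝[Bᶜ] y, φ z ∈ K := by
    intro y
    obtain ⟨C, hC, hCy⟩ := exists_compact_mem_nhds y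
    refine ⟨_, (hp2.isCompact_preimage hC).image hp1.continuous, ?_⟩
    filter_upwards [mem_nhdsWithin_of_mem_nhds hCy, self_mem_nhdsWithin] with z hz hzB
    exact ⟨⟨(φ z, z), (hφΓ z hzB _).2 rfl⟩, hz, rfl⟩
  have hKψ : ∀ x, ∃ K : Set Y, IsCompact K ∧ ∀ᶠ z in 𝓝[Aᶜ] x, ψ z ∈ K := by
    intro x
    obtain ⟨C, hC, hCx⟩ := exists_compact_mem_nhds x
    refine ⟨_, (hp1.isCompact_preimage hC).image hp2.continuous, ?_⟩
    filter_upwards [mem_nhdsWithin_of_mem_nhds hCx, self_mem_nhdsWithin] with z hz hzA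
    exact ⟨⟨(z, ψ z), (hψΓ z hzA _).2 rfl⟩, hz, rfl⟩
  -- step 1: extension of `φ`
  have hlim : ∀ y, ∃ x, Tendsto φ (𝓝[Bᶜ] y) (𝓝 x) := by
    intro y
    obtain ⟨K, hK, hφK⟩ := hKφ y
    obtain ⟨c, hc⟩ : ∃ c, Tendsto (S ∘ φ) (𝓝[Bᶜ] y) (𝓝 c) := by
      have h1 := hφK
      rw [eventually_nhdsWithin_iff] at h1
      obtain ⟨U, hU1, hU, hyU⟩ := _root_.mem_nhds_iff.1 h1
      obtain ⟨C, hC⟩ := hK.exists_bound_of_continuousOn hS.continuous.continuousOn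
      exact tendsto_of_bdd hB hBn hU hyU
        (hS.comp_mdifferentiableOn (hφ.mono fun z hz => hz.2)) (C := C)
        (fun z hz => hC _ (hU1 hz.1 hz.2))
    have hcl : ∀ x, MapClusterPt x (𝓝[Bᶜ] y) φ → S x = c := fun x hx =>
      eq_of_cluster (hx.continuousAt_comp hS.continuous.continuousAt) hc
    refine exists_lim hB hBn hφ.continuousOn hK hφK ?_
    intro x₁ x₂ h1 h2 hne
    obtain ⟨t, ht, htc, hts⟩ := exists_mem_nhds_isClosed_subset (hdisc x₁)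
    have hsub : closure (interior t) ⊆ t := closure_minimal interior_subset htc
    refine ⟨interior t, isOpen_interior, mem_interior_iff_mem_nhds.2 ht, fun h3 => ?_, ?_⟩
    · exact hne (hts (hsub h3) ((hcl _ h2).trans (hcl _ h1).symm)).symm
    · intro x hx h3
      have h4 : x = x₁ := hts (hsub hx.1) ((hcl _ h3).trans (hcl _ h1).symm)
      apply hx.2
      rw [interior_interior, h4]
      exact mem_interior_iff_mem_nhds.2 ht
  obtain ⟨g, Q, -, hg', hQ, hgt, hgφ⟩ := exists_ext hB hBn hφ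
  have hQu : ∀ y, y ∈ Q := fun y => (hlim y).elim fun x hx => hQ y x hx
  have hg : MDifferentiable 𝓘(ℂ, Fin k → ℂ) 𝓘(ℂ, Fin 2 → ℂ) g := by
    rw [← mdifferentiableOn_univ]
    exact hg'.mono fun y _ => hQu y
  -- step 2: `Γ` is the graph of `g`
  have hgΓ : ∀ y, (g y, y) ∈ Γ := by
    intro y
    have := nebot hBn y
    have h1 : Tendsto (fun z => (φ z, z)) (𝓝[Bᶜ] y) (𝓝 (g y, y)) :=
      (hgt y (hQu y)).prodMk_nhds (tendsto_id.mono_left nhdsWithin_le_nhds)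
    refine hΓa.isClosed.mem_of_tendsto h1 ?_
    filter_upwards [self_mem_nhdsWithin] with z hz
    exact (hφΓ z hz _).2 rfl
  obtain ⟨⟨x₀, y₀⟩, -⟩ := hΓne
  have hΓ : Γ = {z : X × Y | z.1 = g z.2} := by
    rcases hirr _ (Γ ∩ Prod.snd ⁻¹' B) (graph_analytic hg)
      (hΓa.inter (hB.preimage mdifferentiable_snd)) (by
        apply Subset.antisymm
        · rintro ⟨x, y⟩ hxy
          by_cases hy : y ∈ B
          · exact Or.inr ⟨hxy, hy⟩
          · exact Or.inl (((hφΓ y hy x).1 hxy).trans (hgφ y hy).2.symm)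
        · rintro ⟨x, y⟩ (hxy | hxy)
          · have h1 : x = g y := hxy
            rw [h1]; exact hgΓ y
          · exact hxy.1) with h1 | h1
    · exact h1
    · exfalso
      have := nebot hBn y₀
      obtain ⟨y, hy⟩ := Filter.nonempty_of_mem (self_mem_nhdsWithin : Bᶜ ∈ 𝓝[Bᶜ] y₀)
      have h2 := hgΓ y
      rw [h1] at h2
      exact hy h2.2
  have hgψ : ∀ x, x ∉ A → g (ψ x) = x := by
    intro x hx
    have h1 := (hψΓ x hx _).2 rfl
    rw [hΓ] at h1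
    exact h1.symm
  have hψg : ∀ y, g y ∉ A → ψ (g y) = y := fun y hy => ((hψΓ _ hy y).1 (hgΓ y)).symm
  obtain ⟨x₁, hx₁⟩ : ∃ x₁, x₁ ∉ A := by
    have := nebot hAn x₀
    exact Filter.nonempty_of_mem (self_mem_nhdsWithin : Aᶜ ∈ 𝓝[Aᶜ] x₀)
  have hAo : IsOpen Aᶜ := hA.isClosed.isOpen_compl
  have hk : k = 2 := by
    have h1 := hψ.mdifferentiableAt (hAo.mem_nhds hx₁)
    apply le_antisymm
    · refine dim_le (f := g) (g := ψ) (x := ψ x₁) (hg _) (by rw [hgψ x₁ hx₁]; exact h1) ?_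
      have h2 : g ⁻¹' Aᶜ ∈ 𝓝 (ψ x₁) :=
        (hAo.preimage hg.continuous).mem_nhds (by rw [mem_preimage, hgψ x₁ hx₁]; exact hx₁)
      filter_upwards [h2] with y hy using hψg y hy
    · refine dim_le (f := ψ) (g := g) (x := x₁) h1 (hg _) ?_
      filter_upwards [hAo.mem_nhds hx₁] with x hx using hgψ x hx
  have hA' : IsAnalyticSet 𝓘(ℂ, Fin k → ℂ) (g ⁻¹' A) := hA.preimage hg
  have hA'n : IsNowhereDense (g ⁻¹' A) := by
    apply nowhereDense_of_ne hA'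
    intro h1
    have h2 : ψ x₁ ∈ g ⁻¹' A := h1 ▸ mem_univ _
    rw [mem_preimage, hgψ x₁ hx₁] at h2
    exact hx₁ h2
  obtain ⟨L, P, hP, hL, hPt, hLt, hLψ⟩ := exists_ext hA hAn hψ
  have hidt : ∀ x, Tendsto (g ∘ ψ) (𝓝[Aᶜ] x) (𝓝 x) := by
    intro x
    refine (tendsto_id.mono_left nhdsWithin_le_nhds).congr' ?_
    filter_upwards [self_mem_nhdsWithin] with z hz using (hgψ z hz).symm
  have hgL : ∀ x ∈ P, g (L x) = x := by
    intro x hx
    have := nebot hAn x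
    exact tendsto_nhds_unique ((hg.continuous.tendsto _).comp (hLt x hx)) (hidt x)
  have hLg : ∀ y, g y ∈ P → L (g y) = y := by
    intro y hy
    have := nebot hA'n y
    have h1 : Tendsto g (𝓝[(g ⁻¹' A)ᶜ] y) (𝓝[Aᶜ] (g y)) :=
      tendsto_nhdsWithin_of_tendsto_nhds_of_eventually_within _
        ((hg.continuous.tendsto _).mono_left nhdsWithin_le_nhds) self_mem_nhdsWithin
    have h2 : Tendsto (ψ ∘ g) (𝓝[(g ⁻¹' A)ᶜ] y) (𝓝 y) := by
      refine (tendsto_id.mono_left nhdsWithin_le_nhds).congr' ?_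
      filter_upwards [self_mem_nhdsWithin] with z hz using (hψg z hz).symm
    exact tendsto_nhds_unique ((hLt _ hy).comp h1) h2
  refine ⟨P, L, hP, hL.continuousOn, fun a ha b hb hab => ?_, fun O hOP hO => ?_, ?_⟩
  · rw [← hgL a ha, hab, hgL b hb]
  · have : L '' O = g ⁻¹' O := by
      apply Subset.antisymm
      · rintro _ ⟨x, hx, rfl⟩
        rw [mem_preimage, hgL x (hOP hx)]
        exact hx
      · intro y hy
        exact ⟨g y, hy, hLg y (hOP hy)⟩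
    rw [this]
    exact hO.preimage hg.continuous
  · have hsm := smallM hk hA' hA'n (G := S ∘ g) (hS.comp hg)
    apply Set.Countable.mono _ hsm
    rintro _ ⟨x, hx, rfl⟩ hcount
    apply hx
    have hxA : x ∈ A := by
      by_contra h1
      exact hx (hLψ x h1).1
    obtain ⟨K, hK, hψK⟩ := hKψ x
    have hcl : ∀ y, MapClusterPt y (𝓝[Aᶜ] x) ψ → g y = x := fun y hy =>
      eq_of_cluster (hy.continuousAt_comp hg.continuous.continuousAt) (hidt x)
    have hC : {y | MapClusterPt y (𝓝[Aᶜ] x) ψ}.Countable := by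
      apply hcount.mono
      intro y hy
      have h1 := hcl y hy
      exact ⟨by rw [mem_preimage, h1]; exact hxA, by simp [h1]⟩
    letI : MetricSpace Y := TopologicalSpace.metrizableSpaceMetric Y
    obtain ⟨y, hy⟩ := exists_lim hA hAn hψ.continuousOn hK hψK (by
      intro y₁ y₂ _ _ hne
      have h1 : ((fun y => dist y y₁) '' {y | MapClusterPt y (𝓝[Aᶜ] x) ψ}).Countable := hC.image _
      obtain ⟨r, hr, hr1⟩ : ∃ r ∈ Ioo 0 (dist y₂ y₁),
          r ∉ (fun y => dist y y₁) '' {y | MapClusterPt y (𝓝[Aᶜ] x) ψ} := by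
        by_contra hcon
        push Not at hcon
        have h2 := h1.mono hcon
        rw [Cardinal.Real.Ioo_countable_iff] at h2
        exact absurd (dist_pos.2 hne.symm) (not_lt.2 h2)
      refine ⟨ball y₁ r, isOpen_ball, mem_ball_self hr.1, fun h2 => ?_, fun y hy h2 => ?_⟩
      · have h3 := closure_ball_subset_closedBall h2
        rw [mem_closedBall] at h3
        exact absurd hr.2 (not_lt.2 h3)
      · exact hr1 ⟨y, h2, frontier_ball_subset_sphere hy⟩)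
    exact hPt x y hy

end Pool.Agent.H69Z.Bim
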