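import Mathlib
import Pool.Agent.Helper10.UC.Fin

set_option autoImplicit false

open Set Metric Filter Topology

namespace Pool.Agent.H69Z.Bim

open Pool.Agent.Helper10.UC

/-- reflection in the plane orthogonal to `(1, τ, τ²)` -/
noncomputable def rf (τ : ℝ) (p : V3) : V3 :=
  (p.1 - 2 * (p.1 + τ * p.2.1 + τ ^ 2 * p.2.2) / (1 + τ ^ 2 + τ ^ 4),
   p.2.1 - 2 * (p.1 + τ * p.2.1 + τ ^ 2 * p.2.2) / (1 + τ ^ 2 + τ ^ 4) * τ,
   p.2.2 - 2 * (p.1 + τ * p.2.1 + τ ^ 2 * p.2.2) / (1 + τ ^ 2 + τ ^ 4) * τ ^ 2)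

theorem rf_rf (τ : ℝ) (p : V3) : rf τ (rf τ p) = p := by
  have h : (1 + τ ^ 2 + τ ^ 4) ≠ 0 := by positivity
  obtain ⟨x, y, z⟩ := p
  simp only [rf, Prod.mk.injEq]
  refine ⟨?_, ?_, ?_⟩ <;> field_simp <;> ring

theorem dot_rf (τ : ℝ) (p : V3) : dot (rf τ p) (rf τ p) = dot p p := by
  have h : (1 + τ ^ 2 + τ ^ 4) ≠ 0 := by positivity
  simp only [rf, dot]
  field_simp
  ring

theorem continuous_rf (τ : ℝ) : Continuous (rf τ) := by
  unfold rf
  fun_prop

/-- the reflection as a homeomorphism of the sphere -/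
noncomputable def rfS (τ : ℝ) : S2 ≃ₜ S2 where
  toFun p := ⟨rf τ p.1, by rw [dot_rf]; exact p.2⟩
  invFun p := ⟨rf τ p.1, by rw [dot_rf]; exact p.2⟩
  left_inv p := Subtype.ext (rf_rf τ p.1)
  right_inv p := Subtype.ext (rf_rf τ p.1)
  continuous_toFun := ((continuous_rf τ).comp continuous_subtype_val).subtype_mk _
  continuous_invFun := ((continuous_rf τ).comp continuous_subtype_val).subtype_mk _

theorem dot_rot {τ : ℝ} (h0 : 0 < τ) (h1 : τ < 1 / 10) {p q : V3} (hp : dot p p = 1)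
    (hq : q = -p) : dot p (rf τ (rf 0 q)) < -1 / 3 := by
  obtain ⟨x, y, z⟩ := p
  subst hq
  have hN : 0 < 1 + τ ^ 2 + τ ^ 4 := by positivity
  simp only [dot] at hp
  have e : dot (x, y, z) (rf τ (rf 0 (-(x, y, z)))) = -(1 - 2 * x ^ 2 +
      2 * (x ^ 2 - (τ * y + τ ^ 2 * z) ^ 2) / (1 + τ ^ 2 + τ ^ 4)) := by
    simp only [rf, dot, Prod.neg_mk]
    field_simp
    linear_combination (-(1 + τ ^ 2 + τ ^ 4)) * hp
  rw [e]
  have hτ2 : τ ^ 2 < 1 / 100 := by nlinarith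
  have hτ4 : τ ^ 4 < 1 / 100 := by nlinarith [sq_nonneg τ]
  have hx : x ^ 2 ≤ 1 := by nlinarith [sq_nonneg y, sq_nonneg z]
  have hm : (τ * y + τ ^ 2 * z) ^ 2 ≤ τ ^ 2 + τ ^ 4 := by
    have h2 : (τ * y + τ ^ 2 * z) ^ 2 ≤ (τ ^ 2 + τ ^ 4) * (y ^ 2 + z ^ 2) := by
      nlinarith [sq_nonneg (τ * z - τ ^ 2 * y)]
    have h3 : y ^ 2 + z ^ 2 ≤ 1 := by nlinarith [sq_nonneg x]
    have h4 : 0 ≤ τ ^ 2 + τ ^ 4 := by positivity
    nlinarith
  have h5 : 2 * x ^ 2 - 2 / 3 < 2 * (x ^ 2 - (τ * y + τ ^ 2 * z) ^ 2) / (1 + τ ^ 2 + τ ^ 4) := by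
    rw [lt_div_iff₀ hN]
    have h6 : x ^ 2 * (τ ^ 2 + τ ^ 4) ≤ τ ^ 2 + τ ^ 4 := by
      have h4 : 0 ≤ τ ^ 2 + τ ^ 4 := by positivity
      nlinarith
    nlinarith [sq_nonneg τ, sq_nonneg (τ ^ 2)]
  linarith

theorem bad_finite {c b : V3} (hc : dot c c = 1) : {τ : ℝ | rf τ c = b}.Finite := by
  by_cases hcb : c = b
  · subst hcb
    obtain ⟨x, y, z⟩ := c
    let P : Polynomial ℝ := Polynomial.C x + Polynomial.C y * Polynomial.X +
      Polynomial.C z * Polynomial.X ^ 2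
    have hP : P ≠ 0 := by
      intro h
      have h0 := congrArg (fun Q : Polynomial ℝ => Q.coeff 0) h
      have h1 := congrArg (fun Q : Polynomial ℝ => Q.coeff 1) h
      have h2 := congrArg (fun Q : Polynomial ℝ => Q.coeff 2) h
      simp [P, Polynomial.coeff_X, Polynomial.coeff_C] at h0 h1 h2
      simp [dot, h0, h1, h2] at hc
    apply (Polynomial.finite_setOf_isRoot hP).subset
    intro τ hτ
    have hN : (1 + τ ^ 2 + τ ^ 4) ≠ 0 := by positivity
    have h1 := congrArg Prod.fst (show rf τ (x, y, z) = (x, y, z) from hτ)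
    simp only [rf, sub_eq_self, div_eq_zero_iff, hN, or_false, mul_eq_zero, OfNat.ofNat_ne_zero,
      false_or] at h1
    show P.IsRoot τ
    simp only [Polynomial.IsRoot.def, P, Polynomial.eval_add, Polynomial.eval_mul,
      Polynomial.eval_C, Polynomial.eval_X, Polynomial.eval_pow]
    linear_combination h1
  · apply (finite_singleton ((c.2.1 - b.2.1) / (c.1 - b.1))).subset
    intro τ hτ
    have h : rf τ c = b := hτ
    have h1 := congrArg Prod.fst h
    have h2 := congrArg (fun p : V3 => p.2.1) h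
    have h3 := congrArg (fun p : V3 => p.2.2) h
    simp only [rf] at h1 h2 h3
    set u := 2 * (c.1 + τ * c.2.1 + τ ^ 2 * c.2.2) / (1 + τ ^ 2 + τ ^ 4) with hu
    have hu0 : u ≠ 0 := by
      intro h0
      rw [h0] at h1 h2 h3
      apply hcb
      exact Prod.ext (by linarith) (Prod.ext (by linarith) (by linarith))
    have e1 : c.1 - b.1 = u := by linarith
    have e2 : c.2.1 - b.2.1 = u * τ := by linarith
    rw [mem_singleton_iff, e1, e2]
    field_simp

theorem compactS2 : CompactSpace S2 := by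
  apply (isCompact_iff_compactSpace (s := {p : V3 | dot p p = 1})).1
  apply Metric.isCompact_of_isClosed_isBounded
  · exact isClosed_eq (by unfold dot; fun_prop) continuous_const
  · apply (isBounded_closedBall (x := (0 : V3)) (r := 1)).subset
    rintro ⟨x, y, z⟩ h
    have h' : x * x + y * y + z * z = 1 := h
    rw [mem_closedBall_zero_iff, Prod.norm_def, Prod.norm_def]
    refine max_le ?_ (max_le ?_ ?_) <;> rw [Real.norm_eq_abs] <;> apply abs_le_one_iff_mul_self_le_one.2 <;>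
      nlinarith [mul_self_nonneg x, mul_self_nonneg y, mul_self_nonneg z]

theorem eq_neg_of_dot {p q : V3} (hp : dot p p = 1) (hq : dot q q = 1) (h : dot p q ≤ -1) :
    q = -p := by
  obtain ⟨x, y, z⟩ := p
  obtain ⟨a, b, c⟩ := q
  simp only [dot] at hp hq h
  have h1 : (x + a) ^ 2 + (y + b) ^ 2 + (z + c) ^ 2 ≤ 0 := by nlinarith
  have e1 : x + a = 0 := by nlinarith [sq_nonneg (x + a), sq_nonneg (y + b), sq_nonneg (z + c)]
  have e2 : y + b = 0 := by nlinarith [sq_nonneg (x + a), sq_nonneg (y + b), sq_nonneg (z + c)]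
  have e3 : z + c = 0 := by nlinarith [sq_nonneg (x + a), sq_nonneg (y + b), sq_nonneg (z + c)]
  simp only [Prod.neg_mk, Prod.mk.injEq]
  exact ⟨by linarith, by linarith, by linarith⟩

/-- an open set with countable complement contains a copy of a neighbourhood of the
antidiagonal -/
theorem avoid {G : Set (DD (-1 / 3))} (hG : IsOpen G) (hc : Gᶜ.Countable) :
    ∃ c : ℝ, -1 < c ∧ ∃ e : DD c → DD (-1 / 3), IsOpenEmbedding e ∧ ∀ q, e q ∈ G := by
  have hbad : (⋃ q ∈ Gᶜ, {τ : ℝ | rf τ (rf 0 (-q.1.1.1)) = q.1.2.1}).Countable := by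
    refine hc.biUnion fun q _ => (bad_finite ?_).countable
    rw [dot_rf]
    have := q.1.1.2
    simpa [dot] using this
  obtain ⟨τ, hτ, hτb⟩ : ∃ τ ∈ Ioo (0 : ℝ) (1 / 10),
      τ ∉ ⋃ q ∈ Gᶜ, {τ : ℝ | rf τ (rf 0 (-q.1.1.1)) = q.1.2.1} := by
    by_contra hcon
    push Not at hcon
    have h2 := hbad.mono hcon
    rw [Cardinal.Real.Ioo_countable_iff] at h2
    norm_num at h2
  let R : (S2 × S2) ≃ₜ (S2 × S2) := (Homeomorph.refl S2).prodCongr ((rfS 0).trans (rfS τ))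
  have hDD : ∀ c : ℝ, IsOpenEmbedding (Subtype.val : DD c → S2 × S2) := fun c =>
    IsOpen.isOpenEmbedding_subtypeVal (s := {q : S2 × S2 | dot q.1.1 q.2.1 < c})
      (isOpen_lt (by unfold dot; fun_prop) continuous_const)
  have hGood : IsOpen (R ⁻¹' (Subtype.val '' G)) := ((hDD _).isOpenMap G hG).preimage R.continuous
  have hanti : ∀ q : S2 × S2, dot q.1.1 q.2.1 ≤ -1 → q ∈ R ⁻¹' (Subtype.val '' G) := by
    intro q hq
    have h1 := eq_neg_of_dot q.1.2 q.2.2 hq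
    refine ⟨⟨R q, dot_rot hτ.1 hτ.2 q.1.2 h1⟩, ?_, rfl⟩
    by_contra h2
    apply hτb
    refine mem_iUnion₂.2 ⟨_, h2, ?_⟩
    show rf τ (rf 0 (-q.1.1)) = rf τ (rf 0 q.2.1)
    rw [h1]
  have := compactS2
  obtain ⟨c, hc1, hc2⟩ : ∃ c : ℝ, -1 < c ∧ ∀ q : S2 × S2, dot q.1.1 q.2.1 < c →
      q ∈ R ⁻¹' (Subtype.val '' G) := by
    rcases (R ⁻¹' (Subtype.val '' G))ᶜ.eq_empty_or_nonempty with h | h
    · refine ⟨0, by norm_num, fun q _ => ?_⟩
      by_contra h1
      exact h.subset h1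
    · obtain ⟨q₀, hq₀, hmin⟩ := hGood.isClosed_compl.isCompact.exists_isMinOn h
        (f := fun q : S2 × S2 => dot q.1.1 q.2.1) (by unfold dot; fun_prop)
      refine ⟨dot q₀.1.1 q₀.2.1, not_le.1 fun h1 => hq₀ (hanti q₀ h1), fun q hq => ?_⟩
      by_contra h1
      exact absurd hq (not_lt.2 (hmin h1))
  have hmem : ∀ q : DD c, dot (R q.1).1.1 (R q.1).2.1 < -1 / 3 := by
    intro q
    obtain ⟨q', -, h⟩ := hc2 q.1 q.2
    rw [← h]
    exact q'.2
  refine ⟨c, hc1, fun q => ⟨R q.1, hmem q⟩, ?_, fun q => ?_⟩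
  · apply IsOpenEmbedding.of_comp _ (hDD _)
    exact R.isOpenEmbedding.comp (hDD c)
  · obtain ⟨q', h1, h⟩ := hc2 q.1 q.2
    have : q' = ⟨R q.1, hmem q⟩ := Subtype.ext h
    rw [this] at h1
    exact h1

theorem no_family {N : Type*} [MetricSpace N] [CompactSpace N] (hL : LFA N) (c : ℕ → ℝ)
    (hc : ∀ j, -1 < c j) (f : ∀ j, DD (c j) → N) (hf : ∀ j, IsOpenEmbedding (f j))
    (hdis : ∀ i j, i ≠ j → ∀ s t, f i s ≠ f j t) : False := by
  have ht := fun j : ℕ => thom (hc j) (f j) (hf j)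
  choose z hz1 hz2 hz3 using ht
  refine no_inf hL z hz1 (e := 4 * Real.pi) (by positivity) ?_
  intro j μ hμ
  obtain ⟨w, hw, hbd, hpair⟩ := hz3 j μ hμ
  have hmono : FC 3 (range (f j)) μ ≤ FC 3 (univ : Set N) μ :=
    Finsupp.supported_mono (fun l hl => ⟨hl.1, fun x _ => mem_univ x, hl.2.2⟩)
  refine ⟨w, hmono hw, hbd, ?_⟩
  intro i
  by_cases hij : i = j
  · subst hij
    simp [hpair]
  · rw [if_neg hij]
    unfold pair
    rw [Finsupp.linearCombination_apply, Finsupp.sum]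
    refine Finset.sum_eq_zero (fun l hl => ?_)
    have hl' : l ∈ Sml 3 (range (f j)) μ := hw hl
    have : z i l = 0 := by
      apply hz2 i
      obtain ⟨h3, hr, _⟩ := hl'
      match l, h3, hr with
      | a :: l', _, hr =>
        refine ⟨a, by simp, ?_⟩
        have ha := hr a (by simp)
        rintro ⟨s, hs⟩
        obtain ⟨t, htt⟩ := ha
        exact hdis i j hij s t (hs.trans htt.symm)
    rw [this]; simp

end Pool.Agent.H69Z.Bim
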