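import Mathlib
import Pool.Agent.H69Z.Bim.Main1
import Pool.Agent.H69Z.Bim.Dev
import Pool.Agent.H69Z.Bim.Sph

set_option autoImplicit false

open Set Metric Filter Topology
open scoped Manifold ContDiff

namespace Pool.Agent.H69Z.Bim

open Pool.Agent.Helper10.UC

theorem lfa_complex {k : ℕ} {N : Type*} [MetricSpace N] [CompactSpace N]
    [ChartedSpace (Fin k → ℂ) N] : LFA N := by
  let e : (Fin k → ℂ) ≃L[ℝ] EuclideanSpace ℝ (Fin (2 * k)) :=
    ContinuousLinearEquiv.ofFinrankEq (by
      rw [Module.finrank_pi_fintype]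
      simp [mul_comm])
  letI : ChartedSpace (EuclideanSpace ℝ (Fin (2 * k))) N :=
    { atlas := range fun x : N =>
        (chartAt (Fin k → ℂ) x).trans e.toHomeomorph.toOpenPartialHomeomorph
      chartAt := fun x => (chartAt (Fin k → ℂ) x).trans e.toHomeomorph.toOpenPartialHomeomorph
      mem_chart_source := fun x => by simp
      chart_mem_atlas := fun x => ⟨x, rfl⟩ }
  exact lfa_of_charted (k := 2 * k)

theorem not_bimeromorphic {X : Type*} [TopologicalSpace X] [T2Space X]
    [ChartedSpace (Fin 2 → ℂ) X] [IsManifold 𝓘(ℂ, Fin 2 → ℂ) ω X] [SimplyConnectedSpace X]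
    {p : X → MM} (hp : IsCoveringMap p) (hol : IsHolToProj 2 (fun x => (p x).1))
    {k : ℕ} {N : Type*} [TopologicalSpace N] [T2Space N] [CompactSpace N]
    [ChartedSpace (Fin k → ℂ) N] [IsManifold 𝓘(ℂ, Fin k → ℂ) ω N]
    (Ω : TopologicalSpace.Opens N) (hΩ : IsConnected (Ω : Set N)) : ¬ Bimeromorphic 2 k X Ω := by
  intro h
  have : SecondCountableTopology N := ChartedSpace.secondCountable_of_sigmaCompact (Fin k → ℂ) N
  have : LocallyCompactSpace N := ChartedSpace.locallyCompactSpace (Fin k → ℂ) N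
  have : PreconnectedSpace Ω := Subtype.preconnectedSpace hΩ.isPreconnected
  obtain ⟨S, hS, hdisc⟩ := exists_S (m := 2) hp.isLocalHomeomorph hol
  obtain ⟨P, L, hP, hLc, hLi, hLo, hcount⟩ := main1 hS hdisc h
  letI : MetricSpace N := TopologicalSpace.metrizableSpaceMetric N
  have hL : LFA N := lfa_complex (k := k)
  obtain ⟨K, hK⟩ := local_piece
  have hc : (-1 : ℝ) < -1 / 3 := by norm_num
  have hc1 : (-1 / 3 : ℝ) ≤ 1 := by norm_num
  have := pre_DD hc hc1
  have : PathConnectedSpace MM := isPathConnected_iff_pathConnectedSpace.1 pathM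
  have := infinite_fibre hp (K (q00 hc)) (infinite_piM _)
  let y := Infinite.natEmbedding (p ⁻¹' {K (q00 hc)})
  have hl := fun j : ℕ => lifts hp hc hc1 K hK.continuous (q00 hc) (y j).1 (y j).2
  choose F hFc hFp hF0 using hl
  have hFe : ∀ j, IsOpenEmbedding (F j) := fun j => (lift_emb hp hK).1 (F j) (hFc j) (hFp j)
  have hdis : ∀ i j, i ≠ j → Disjoint (range (F i)) (range (F j)) := by
    intro i j hij
    refine (lift_emb hp hK).2 (F i) (F j) (hFc i) (hFc j) (hFp i) (hFp j) ⟨q00 hc, ?_⟩
    rw [hF0, hF0]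
    intro h
    exact hij (y.injective (Subtype.ext h))
  have hav := fun j : ℕ => avoid (G := F j ⁻¹' P) (hP.preimage (hFc j)) (by
    have h1 : (⋃ c ∈ S '' Pᶜ, {q | S (F j q) = c}).Countable := by
      refine hcount.biUnion fun c _ => countable_of_isolated fun q hq => ?_
      filter_upwards [(hFc j).continuousAt.eventually (hdisc (F j q))] with q' h2 h3
      exact (hFe j).injective (h2 (h3.trans hq.symm))
    apply h1.mono
    intro q hq
    exact mem_iUnion₂.2 ⟨_, ⟨F j q, hq, rfl⟩, rfl⟩)
  choose c hc' e he heP using hav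
  refine no_family hL c hc' (fun j q => (L (F j (e j q))).1) (fun j => ?_) ?_
  · refine Ω.isOpen.isOpenEmbedding_subtypeVal.comp (f := fun q => L (F j (e j q))) ?_
    have h1 := (hFe j).comp (he j)
    refine IsOpenEmbedding.of_continuous_injective_isOpenMap
      (hLc.comp_continuous h1.continuous (heP j))
      (fun a b hab => h1.injective (hLi (heP j a) (heP j b) hab)) (fun O hO => ?_)
    have h2 := hLo _ (by
      rintro _ ⟨q, -, rfl⟩
      exact heP j q) (h1.isOpenMap O hO)
    rwa [image_image] at h2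
  · intro i j hij s t hst
    have h1 := hLi (heP i s) (heP j t) (Subtype.ext hst)
    exact Set.disjoint_left.1 (hdis i j hij) ⟨_, rfl⟩ ⟨_, h1.symm⟩

end Pool.Agent.H69Z.Bim
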